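import Pool.Agent.Lib.MP_0430e4_lc.TensorCert

/-!
# Symmetric certificates and the growth of their values near the origin
-/

set_option autoImplicit false
set_option linter.unusedSectionVars false

namespace Pool.Agent.Lib.MP_0430e4_lc.Stab

open Finset Tensor

variable {ι : Type*} [Fintype ι] [DecidableEq ι]

/-- sum over all permutations of the coordinates -/
def symm (h : (ι → Bool) → ℝ) : (ι → Bool) → ℝ := fun y => ∑ e : Equiv.Perm ι, transp e h y

theorem isCert_sum {α : Type*} (s : Finset α) (hs : s.Nonempty) {l : ℝ}
    {f : α → (ι → Bool) → ℝ} (hf : ∀ a ∈ s, IsCert l (f a)) :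
    IsCert l (fun y => ∑ a ∈ s, f a y) := by
  refine ⟨fun y => Finset.sum_nonneg fun a ha => (hf a ha).nonneg y, fun x => ?_, fun y => ?_,
    Finset.sum_pos (fun a ha => (hf a ha).pos) hs⟩
  · have : ∑ y, (∑ a ∈ s, f a y) * chi x y = ∑ a ∈ s, ∑ y, f a y * chi x y := by
      simp only [Finset.sum_mul]
      exact Finset.sum_comm
    rw [this]
    exact Finset.sum_nonneg fun a ha => (hf a ha).fourier x
  · rw [Finset.mul_sum, Finset.sum_comm]
    exact Finset.sum_le_sum fun a ha => (hf a ha).adj y

theorem isCert_symm {l : ℝ} {h : (ι → Bool) → ℝ} (hh : IsCert l h) : IsCert l (symm h) :=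
  isCert_sum univ ⟨1, mem_univ _⟩ fun e _ => hh.transp e

theorem val_symm (h : (ι → Bool) → ℝ) : Tensor.val (symm h) = Tensor.val h := by
  unfold Tensor.val symm
  rw [Finset.sum_comm]
  have h1 : ∀ e : Equiv.Perm ι, ∑ y, transp e h y = ∑ y, h y := fun e => sum_transp e h
  simp only [h1]
  have h2 : ∀ e : Equiv.Perm ι, transp e h (fun _ => false) = h (fun _ => false) := fun e => rfl
  simp only [h2]
  rw [Finset.sum_const, Finset.sum_const, nsmul_eq_mul, nsmul_eq_mul]
  apply mul_div_mul_left
  have : 0 < (univ : Finset (Equiv.Perm ι)).card := Finset.card_pos.2 ⟨1, mem_univ _⟩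
  exact_mod_cast this.ne'

/-- symmetric functions -/
def IsSymm (h : (ι → Bool) → ℝ) : Prop :=
  ∀ (e : Equiv.Perm ι) (y : ι → Bool), h (fun i => y (e i)) = h y

theorem isSymm_symm (h : (ι → Bool) → ℝ) : IsSymm (symm h) := by
  intro e y
  unfold symm transp
  apply Fintype.sum_equiv (Equiv.mulLeft e)
  intro f
  rfl

/-- the weight -/
def wt (y : ι → Bool) : ℕ := (univ.filter fun i => y i = true).card

theorem IsSymm.flp_eq {h : (ι → Bool) → ℝ} (hs : IsSymm h) {y : ι → Bool} {i j : ι}
    (hij : y i = y j) : h (flp y i) = h (flp y j) := by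
  rw [← hs (Equiv.swap i j) (flp y i)]
  congr 1
  funext x
  unfold flp
  by_cases hxi : x = i
  · subst hxi
    rw [Equiv.swap_apply_left]
    by_cases hji : j = x
    · subst hji; rfl
    · rw [Function.update_of_ne hji, Function.update_of_ne (Ne.symm hji), hij]
  · by_cases hxj : x = j
    · subst hxj
      rw [Equiv.swap_apply_right, Function.update_self, Function.update_self, hij]
    · rw [Equiv.swap_apply_of_ne_of_ne hxi hxj, Function.update_of_ne hxi,
        Function.update_of_ne hxj]

theorem wt_flp_of_true {y : ι → Bool} {j : ι} (hj : y j = true) : wt (flp y j) + 1 = wt y := by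
  unfold wt
  have : (univ.filter fun i => y i = true) = insert j (univ.filter fun i => flp y j i = true) := by
    ext x
    simp only [mem_filter, mem_univ, true_and, mem_insert]
    unfold flp
    by_cases hx : x = j
    · subst hx; simp [hj]
    · rw [Function.update_of_ne hx]; simp [hx]
  rw [this, Finset.card_insert_of_notMem]
  simp only [mem_filter, mem_univ, true_and]
  unfold flp
  simp [hj]

theorem wt_flp_of_false {y : ι → Bool} {j : ι} (hj : y j = false) :
    wt (flp y j) = wt y + 1 := by
  have h1 : flp y j j = true := by unfold flp; simp [hj]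
  have := wt_flp_of_true h1
  rw [flp_flp] at this
  exact this.symm

theorem IsSymm.adj_split {h : (ι → Bool) → ℝ} (hs : IsSymm h) {y : ι → Bool} {i : ι}
    (hi : y i = false) {A : ℝ} (hA : ∀ j, y j = true → h (flp y j) ≤ A) :
    ∑ x, h (flp y x) ≤ wt y * A + (Fintype.card ι - wt y) * h (flp y i) := by
  rw [← Finset.sum_filter_add_sum_filter_not univ (fun x => y x = true)]
  have h1 : ∑ x ∈ univ.filter (fun x => y x = true), h (flp y x) ≤ wt y * A := by
    have : ∑ x ∈ univ.filter (fun x => y x = true), h (flp y x) ≤
        ∑ x ∈ univ.filter (fun x => y x = true), A :=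
      Finset.sum_le_sum fun x hx => hA x (Finset.mem_filter.1 hx).2
    rw [Finset.sum_const, nsmul_eq_mul] at this
    exact this
  have h2 : ∑ x ∈ univ.filter (fun x => ¬ y x = true), h (flp y x) =
      (Fintype.card ι - wt y) * h (flp y i) := by
    have e1 : ∀ x ∈ univ.filter (fun x => ¬ y x = true), h (flp y x) = h (flp y i) := by
      intro x hx
      apply hs.flp_eq
      have := (Finset.mem_filter.1 hx).2
      rw [hi]
      simpa using this
    rw [Finset.sum_congr rfl e1, Finset.sum_const, nsmul_eq_mul]
    congr 1
    have := Finset.card_filter_add_card_filter_not (s := (univ : Finset ι)) (fun x => y x = true)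
    rw [Finset.card_univ] at this
    unfold wt
    rw [← this]
    push_cast
    ring
  linarith

/-- The ratio of consecutive values of a symmetric certificate is bounded below near the origin. -/
theorem ratio {l c : ℝ} (hc : 0 < c) {h : (ι → Bool) → ℝ}
    (hh : IsCert l h) (hs : IsSymm h) (hl : c * Fintype.card ι ≤ l) :
    ∀ (w : ℕ) (y : ι → Bool), wt y = w → (w : ℝ) ≤ c ^ 2 / 4 * Fintype.card ι →
      ∀ i, y i = false → c / 2 * h y ≤ h (flp y i) := by
  intro w
  induction w with
  | zero =>
    intro y hy _ i hi
    have hyf : ∀ j, y j = false := by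
      intro j
      by_contra hcon
      have hj : j ∈ univ.filter (fun i => y i = true) := by simpa using hcon
      unfold wt at hy
      rw [Finset.card_eq_zero] at hy
      rw [hy] at hj
      exact absurd hj (Finset.notMem_empty _)
    have h1 := hs.adj_split hi (A := 0) (fun j hj => by rw [hyf j] at hj; exact absurd hj (by simp))
    have h2 := hh.adj y
    rw [hy] at h1
    simp only [Nat.cast_zero, zero_mul, zero_add, sub_zero] at h1
    have hn : (0 : ℝ) < Fintype.card ι := by
      have : 0 < Fintype.card ι := Fintype.card_pos_iff.2 ⟨i⟩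
      exact_mod_cast this
    have h3 : c * Fintype.card ι * h y ≤ Fintype.card ι * h (flp y i) := by
      calc c * Fintype.card ι * h y ≤ l * h y := mul_le_mul_of_nonneg_right hl (hh.nonneg y)
        _ ≤ _ := h2.trans h1
    have h4 : c * h y ≤ h (flp y i) := by
      refine le_of_mul_le_mul_left ?_ hn
      linarith
    have := mul_nonneg hc.le (hh.nonneg y)
    linarith
  | succ w ih =>
    intro y hy hw i hi
    push_cast at hw
    have hn : (0 : ℝ) < Fintype.card ι := by
      have : 0 < Fintype.card ι := Fintype.card_pos_iff.2 ⟨i⟩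
      exact_mod_cast this
    have hA : ∀ j, y j = true → h (flp y j) ≤ 2 / c * h y := by
      intro j hj
      have h1 : wt (flp y j) = w := by
        have := wt_flp_of_true hj
        omega
      have h2 : flp y j j = false := by unfold flp; simp [hj]
      have h3 := ih (flp y j) h1 (by linarith) j h2
      rw [flp_flp] at h3
      rw [div_mul_eq_mul_div, le_div_iff₀ hc]
      linarith
    have h1 := hs.adj_split hi hA
    have h2 := hh.adj y
    have h3 := (mul_le_mul_of_nonneg_right hl (hh.nonneg y)).trans (h2.trans h1)
    rw [hy] at h3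
    push_cast at h3
    have h5 : ((w : ℝ) + 1) * (2 / c * h y) ≤ c / 2 * Fintype.card ι * h y := by
      have e1 : ((w : ℝ) + 1) * (2 / c) ≤ c / 2 * Fintype.card ι := by
        calc ((w : ℝ) + 1) * (2 / c) ≤ (c ^ 2 / 4 * Fintype.card ι) * (2 / c) :=
              mul_le_mul_of_nonneg_right hw (by positivity)
          _ = c / 2 * Fintype.card ι := by field_simp; ring
      calc ((w : ℝ) + 1) * (2 / c * h y) = ((w : ℝ) + 1) * (2 / c) * h y := by ring
        _ ≤ c / 2 * Fintype.card ι * h y := mul_le_mul_of_nonneg_right e1 (hh.nonneg y)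
    have h6 : c / 2 * Fintype.card ι * h y ≤ (Fintype.card ι - ((w : ℝ) + 1)) * h (flp y i) := by
      have : c * Fintype.card ι * h y = c / 2 * Fintype.card ι * h y +
          c / 2 * Fintype.card ι * h y := by ring
      linarith
    have h7 : (Fintype.card ι - ((w : ℝ) + 1)) * h (flp y i) ≤ Fintype.card ι * h (flp y i) := by
      apply mul_le_mul_of_nonneg_right _ (hh.nonneg _)
      have : (0 : ℝ) ≤ w := Nat.cast_nonneg w
      linarith
    refine le_of_mul_le_mul_left ?_ hn
    calc (Fintype.card ι : ℝ) * (c / 2 * h y) = c / 2 * Fintype.card ι * h y := by ring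
      _ ≤ _ := h6.trans h7

/-- A symmetric certificate decays at most exponentially near the origin. -/
theorem growth {l c : ℝ} (hc : 0 < c) {h : (ι → Bool) → ℝ}
    (hh : IsCert l h) (hs : IsSymm h) (hl : c * Fintype.card ι ≤ l) :
    ∀ (w : ℕ) (y : ι → Bool), wt y = w → (w : ℝ) ≤ c ^ 2 / 4 * Fintype.card ι →
      (c / 2) ^ w * h (fun _ => false) ≤ h y := by
  intro w
  induction w with
  | zero =>
    intro y hy _
    have hyf : y = fun _ => false := by
      funext j
      by_contra hcon
      have hj : j ∈ univ.filter (fun i => y i = true) := by simpa using hcon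
      unfold wt at hy
      rw [Finset.card_eq_zero] at hy
      rw [hy] at hj
      exact absurd hj (Finset.notMem_empty _)
    rw [hyf, pow_zero, one_mul]
  | succ w ih =>
    intro y hy hw
    push_cast at hw
    have hex : ∃ j, y j = true := by
      by_contra hcon
      push Not at hcon
      have : wt y = 0 := by
        unfold wt
        rw [Finset.card_eq_zero, Finset.filter_eq_empty_iff]
        intro j _
        exact hcon j
      omega
    obtain ⟨j, hj⟩ := hex
    have h1 : wt (flp y j) = w := by
      have := wt_flp_of_true hj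
      omega
    have h2 : flp y j j = false := by unfold flp; simp [hj]
    have h3 := ratio hc hh hs hl w (flp y j) h1 (by linarith) j h2
    rw [flp_flp] at h3
    have h4 := ih (flp y j) h1 (by linarith)
    calc (c / 2) ^ (w + 1) * h (fun _ => false) = c / 2 * ((c / 2) ^ w * h (fun _ => false)) := by
          ring
      _ ≤ c / 2 * h (flp y j) := mul_le_mul_of_nonneg_left h4 (by positivity)
      _ ≤ h y := h3

end Pool.Agent.Lib.MP_0430e4_lc.Stab
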