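import Pool.Agent.Lib.MP_0430e4_lc.Stab.Bias

/-!
# Constraints of bounded width: many disjoint constraints, or few coordinates meet them all
-/

set_option autoImplicit false
set_option linter.unusedSectionVars false

namespace Pool.Agent.Lib.MP_0430e4_lc.Stab

open Finset Tensor

variable {ι : Type*} [Fintype ι] [DecidableEq ι]

theorem sgn_mul (a b : Bool) : sgn a * sgn b = if a = b then 1 else -1 := by
  cases a <;> cases b <;> simp [sgn]

/-- A code that avoids a pattern on `S` has a biased parity inside `S`. -/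
theorem exists_bias {C : Finset (ι → Bool)} {S : Finset ι} {p : ι → Bool}
    (hS : ∀ c ∈ C, ∃ i ∈ S, c i ≠ p i) :
    ∃ V : Finset ι, V ⊆ S ∧ V.Nonempty ∧
      (1 / 2 : ℝ) ^ S.card * C.card ≤ |∑ x ∈ C, par V x| ∨ C = ∅ := by
  rcases C.eq_empty_or_nonempty with h0 | h0
  · exact ⟨∅, Or.inr h0⟩
  by_contra hcon
  push Not at hcon
  have hlt : ∀ V : Finset ι, V ⊆ S → V.Nonempty →
      |∑ x ∈ C, par V x| < (1 / 2 : ℝ) ^ S.card * C.card := fun V h1 h2 => (hcon V).1 h1 h2
  have hz : ∑ V ∈ S.powerset, par V p * ∑ x ∈ C, par V x = 0 := by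
    have e1 : ∀ x ∈ C, ∑ V ∈ S.powerset, par V p * par V x = 0 := by
      intro x hx
      have e2 : ∑ V ∈ S.powerset, par V p * par V x = ∏ i ∈ S, (1 + sgn (p i) * sgn (x i)) := by
        rw [Finset.prod_one_add]
        apply Finset.sum_congr rfl
        intro V _
        unfold par
        rw [Finset.prod_mul_distrib]
      rw [e2]
      obtain ⟨i, hi, hne⟩ := hS x hx
      apply Finset.prod_eq_zero hi
      rw [sgn_mul, if_neg (fun h => hne h.symm)]
      norm_num
    have e3 : ∑ V ∈ S.powerset, par V p * ∑ x ∈ C, par V x =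
        ∑ x ∈ C, ∑ V ∈ S.powerset, par V p * par V x := by
      simp only [Finset.mul_sum]
      exact Finset.sum_comm
    rw [e3]
    exact Finset.sum_eq_zero e1
  have hmem : ∅ ∈ S.powerset := Finset.empty_mem_powerset S
  rw [← Finset.add_sum_erase _ _ hmem] at hz
  have e4 : par (∅ : Finset ι) p * ∑ x ∈ C, par (∅ : Finset ι) x = C.card := by
    unfold par
    simp
  rw [e4] at hz
  have hC : (0 : ℝ) < C.card := by exact_mod_cast h0.card_pos
  have e5 : (C.card : ℝ) ≤ ∑ V ∈ S.powerset.erase ∅, |∑ x ∈ C, par V x| := by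
    have e6 : (C.card : ℝ) = |∑ V ∈ S.powerset.erase ∅, par V p * ∑ x ∈ C, par V x| := by
      have : ∑ V ∈ S.powerset.erase ∅, par V p * ∑ x ∈ C, par V x = -(C.card : ℝ) := by linarith
      rw [this, abs_neg, abs_of_pos hC]
    rw [e6]
    refine (Finset.abs_sum_le_sum_abs _ _).trans ?_
    apply Finset.sum_le_sum
    intro V _
    rw [abs_mul, par_abs, one_mul]
  have e7 : ∑ V ∈ S.powerset.erase ∅, |∑ x ∈ C, par V x| ≤
      ∑ V ∈ S.powerset.erase ∅, (1 / 2 : ℝ) ^ S.card * C.card := by
    apply Finset.sum_le_sum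
    intro V hV
    rw [Finset.mem_erase, Finset.mem_powerset] at hV
    exact (hlt V hV.2 (Finset.nonempty_iff_ne_empty.2 hV.1)).le
  rw [Finset.sum_const, Finset.card_erase_of_mem hmem, Finset.card_powerset, nsmul_eq_mul] at e7
  have h1 : (1 : ℕ) ≤ 2 ^ S.card := Nat.one_le_two_pow
  rw [Nat.cast_sub h1] at e7
  push_cast at e7
  have e8 : ((2 : ℝ) ^ S.card - 1) * ((1 / 2 : ℝ) ^ S.card * C.card) < C.card := by
    have e9 : (2 : ℝ) ^ S.card * (1 / 2 : ℝ) ^ S.card = 1 := by
      rw [← mul_pow]; norm_num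
    have e10 : 0 < (1 / 2 : ℝ) ^ S.card * C.card := by positivity
    calc ((2 : ℝ) ^ S.card - 1) * ((1 / 2 : ℝ) ^ S.card * C.card) =
        (2 : ℝ) ^ S.card * (1 / 2 : ℝ) ^ S.card * C.card - (1 / 2 : ℝ) ^ S.card * C.card := by ring
      _ < C.card := by rw [e9, one_mul]; linarith
  linarith

/-- A popular pattern on `T`. -/
theorem exists_popular (C : Finset (ι → Bool)) (T : Finset ι) :
    ∃ a : ι → Bool, C.card ≤ 2 ^ T.card * (C.filter fun c => ∀ i ∈ T, c i = a i).card := by
  classical
  by_contra hcon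
  push Not at hcon
  set r : (ι → Bool) → (ι → Bool) := fun c i => if i ∈ T then c i else false with hr
  have hmaps : ∀ c ∈ C, r c ∈ Finset.image (fun V : Finset ι => ind V) T.powerset := by
    intro c _
    rw [Finset.mem_image]
    refine ⟨T.filter fun i => c i = true, Finset.mem_powerset.2 (Finset.filter_subset _ _), ?_⟩
    funext i
    unfold ind
    simp only [hr, Finset.mem_filter]
    by_cases hi : i ∈ T <;> simp [hi]
  have hcard := Finset.card_eq_sum_card_fiberwise (f := r)
    (t := Finset.image (fun V : Finset ι => ind V) T.powerset) hmaps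
  have hpos : 0 < 2 ^ T.card := by positivity
  have hle : ∀ a ∈ Finset.image (fun V : Finset ι => ind V) T.powerset,
      2 ^ T.card * (C.filter fun c => r c = a).card < C.card := by
    intro a _
    refine lt_of_le_of_lt ?_ (hcon a)
    apply Nat.mul_le_mul_left
    apply Finset.card_le_card
    intro c hc
    rw [Finset.mem_filter] at hc ⊢
    refine ⟨hc.1, fun i hi => ?_⟩
    rw [← hc.2]
    simp only [hr, if_pos hi]
  have hne : (Finset.image (fun V : Finset ι => ind V) T.powerset).Nonempty :=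
    ⟨_, Finset.mem_image_of_mem _ (Finset.empty_mem_powerset T)⟩
  have h1 : 2 ^ T.card * C.card <
      ∑ _a ∈ Finset.image (fun V : Finset ι => ind V) T.powerset, C.card := by
    conv_lhs => rw [hcard]
    rw [Finset.mul_sum]
    exact Finset.sum_lt_sum_of_nonempty hne hle
  rw [Finset.sum_const, smul_eq_mul] at h1
  have h2 : (Finset.image (fun V : Finset ι => ind V) T.powerset).card ≤ 2 ^ T.card := by
    refine Finset.card_image_le.trans ?_
    rw [Finset.card_powerset]
  exact absurd (Nat.mul_le_mul_right C.card h2) (not_le.2 h1)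

/-- Disjoint supports or a small hitting set. -/
theorem exists_disjoint_or_hitting (F : Set (Finset ι)) (hF : ∀ S ∈ F, S.Nonempty)
    {w : ℕ} (hw : ∀ S ∈ F, S.card ≤ w) (M : ℕ) :
    (∃ A : Finset (Finset ι), A.card = M ∧ (∀ S ∈ A, S ∈ F) ∧
      (A : Set (Finset ι)).PairwiseDisjoint id) ∨
    (∃ T : Finset ι, T.card ≤ w * M ∧ ∀ S ∈ F, ¬ Disjoint S T) := by
  classical
  -- a disjoint subfamily with the largest number of members among those with at most `M`
  set P : Finset (Finset (Finset ι)) := univ.filter fun A =>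
    (∀ S ∈ A, S ∈ F) ∧ (A : Set (Finset ι)).PairwiseDisjoint id with hP
  have hne : P.Nonempty := ⟨∅, by
    rw [hP, Finset.mem_filter]
    refine ⟨Finset.mem_univ _, fun S hS => absurd hS (Finset.notMem_empty S), ?_⟩
    simp⟩
  obtain ⟨A, hA, hmax⟩ := Finset.exists_max_image P Finset.card hne
  rw [hP, Finset.mem_filter] at hA
  obtain ⟨-, hAF, hAd⟩ := hA
  rcases le_or_gt M A.card with h | h
  · left
    obtain ⟨B, hBA, hB⟩ := Finset.exists_subset_card_eq h
    exact ⟨B, hB, fun S hS => hAF S (hBA hS), hAd.subset (by exact_mod_cast hBA)⟩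
  · right
    refine ⟨A.biUnion id, ?_, ?_⟩
    · refine (Finset.card_biUnion_le_card_mul _ _ w (fun S hS => hw S (hAF S hS))).trans ?_
      rw [mul_comm]
      exact Nat.mul_le_mul_left _ h.le
    · intro S hS hdis
      have hSA : S ∉ A := by
        intro hSA
        obtain ⟨i, hi⟩ := hF S hS
        exact Finset.disjoint_left.1 hdis hi (Finset.mem_biUnion.2 ⟨S, hSA, hi⟩)
      have hmem : insert S A ∈ P := by
        rw [hP, Finset.mem_filter]
        refine ⟨Finset.mem_univ _, ?_, ?_⟩
        · intro S' hS'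
          rcases Finset.mem_insert.1 hS' with rfl | h'
          · exact hS
          · exact hAF S' h'
        · rw [Finset.coe_insert]
          apply hAd.insert
          intro S' hS' _
          change Disjoint S S'
          rw [Finset.disjoint_left] at hdis ⊢
          intro i hi hi'
          exact hdis hi (Finset.mem_biUnion.2 ⟨S', hS', hi'⟩)
      have := hmax _ hmem
      rw [Finset.card_insert_of_notMem hSA] at this
      omega

/-- `x` satisfies the constraint of not being equal to `p` on `S`. -/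
def Sat (φ : Finset ι × (ι → Bool)) (x : ι → Bool) : Prop := ∃ i ∈ φ.1, x i ≠ φ.2 i

/-- Cleaning: either a large part of the code satisfies many disjoint constraints, or fixing few
coordinates makes all constraints true. -/
theorem cleaning {K : ℕ} (hK : 1 ≤ K) : ∀ (w : ℕ) (C : Finset (ι → Bool)) (M : ℕ)
    (Φ : Set (Finset ι × (ι → Bool))), C.Nonempty → (∀ φ ∈ Φ, φ.1.card ≤ w) →
    (∀ φ ∈ Φ, ∀ c ∈ C, Sat φ c) →
    ∃ (C' : Finset (ι → Bool)) (τ : ℕ), C' ⊆ C ∧ C.card ≤ 2 ^ τ * C'.card ∧
      ((∃ t ≤ w, K * τ ≤ w ^ 2 * (M * K ^ t) ∧ ∃ A : Finset (Finset ι),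
          A.card = M * K ^ t ∧ (A : Set (Finset ι)).PairwiseDisjoint id ∧
          ∀ S ∈ A, S.card ≤ w ∧ ∃ p : ι → Bool, ∀ c ∈ C', Sat (S, p) c) ∨
        (τ ≤ w ^ 2 * (M * K ^ w) ∧ ∃ (T : Finset ι) (a : ι → Bool), T.card ≤ τ ∧
          ∀ x : ι → Bool, (∀ i ∈ T, x i = a i) → ∀ φ ∈ Φ, Sat φ x)) := by
  classical
  intro w
  induction w with
  | zero =>
    intro C M Φ hC hw hΦ
    refine ⟨C, 0, Finset.Subset.refl _, by simp, Or.inr ⟨by simp, ∅, fun _ => false, by simp, ?_⟩⟩
    intro x _ φ hφ
    obtain ⟨c, hc⟩ := hC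
    obtain ⟨i, hi, -⟩ := hΦ φ hφ c hc
    have := hw φ hφ
    rw [Nat.le_zero, Finset.card_eq_zero] at this
    rw [this] at hi
    exact absurd hi (Finset.notMem_empty _)
  | succ w ih =>
    intro C M Φ hC hw hΦ
    have hne : ∀ S ∈ Prod.fst '' Φ, S.Nonempty := by
      rintro S ⟨φ, hφ, rfl⟩
      obtain ⟨c, hc⟩ := hC
      obtain ⟨i, hi, -⟩ := hΦ φ hφ c hc
      exact ⟨i, hi⟩
    have hwS : ∀ S ∈ Prod.fst '' Φ, S.card ≤ w + 1 := by
      rintro S ⟨φ, hφ, rfl⟩
      exact hw φ hφ
    rcases exists_disjoint_or_hitting _ hne hwS M with ⟨A, hAM, hAF, hAd⟩ | ⟨T1, hT1, hhit⟩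
    · refine ⟨C, 0, Finset.Subset.refl _, by simp, Or.inl ⟨0, Nat.zero_le _, by simp, A, ?_, hAd, ?_⟩⟩
      · rw [hAM, pow_zero, mul_one]
      · intro S hS
        obtain ⟨φ, hφ, rfl⟩ := hAF S hS
        exact ⟨hw φ hφ, φ.2, fun c hc => hΦ φ hφ c hc⟩
    · obtain ⟨a1, ha1⟩ := exists_popular C T1
      set C1 := C.filter fun c => ∀ i ∈ T1, c i = a1 i with hC1
      have hC1ne : C1.Nonempty := by
        rw [← Finset.card_pos]
        by_contra hcon
        have h0 : C1.card = 0 := by omega
        rw [h0, mul_zero] at ha1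
        have := hC.card_pos
        omega
      set Φ1 : Set (Finset ι × (ι → Bool)) := {ψ | ∃ φ ∈ Φ, ψ = (φ.1 \ T1, φ.2) ∧
        ∀ i ∈ φ.1, i ∈ T1 → φ.2 i = a1 i} with hΦ1
      have hw1 : ∀ ψ ∈ Φ1, ψ.1.card ≤ w := by
        rintro ψ ⟨φ, hφ, rfl, -⟩
        have h1 := hhit φ.1 ⟨φ, hφ, rfl⟩
        rw [Finset.not_disjoint_iff] at h1
        obtain ⟨i, hi, hiT⟩ := h1
        have h2 : (φ.1 \ T1).card < φ.1.card := by
          apply Finset.card_lt_card
          refine ⟨Finset.sdiff_subset, fun hsub => ?_⟩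
          have := hsub hi
          rw [Finset.mem_sdiff] at this
          exact this.2 hiT
        have := hw φ hφ
        change (φ.1 \ T1).card ≤ w
        omega
      have hsat1 : ∀ ψ ∈ Φ1, ∀ c ∈ C1, Sat ψ c := by
        rintro ψ ⟨φ, hφ, rfl, hag⟩ c hc
        rw [hC1, Finset.mem_filter] at hc
        obtain ⟨i, hi, hne'⟩ := hΦ φ hφ c hc.1
        refine ⟨i, ?_, hne'⟩
        change i ∈ φ.1 \ T1
        rw [Finset.mem_sdiff]
        refine ⟨hi, fun hiT => hne' ?_⟩
        rw [hc.2 i hiT, hag i hi hiT]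
      obtain ⟨C', τ, hC', hcard, halt⟩ := ih C1 (M * K) Φ1 hC1ne hw1 hsat1
      refine ⟨C', T1.card + τ, hC'.trans (Finset.filter_subset _ _), ?_, ?_⟩
      · calc C.card ≤ 2 ^ T1.card * C1.card := ha1
          _ ≤ 2 ^ T1.card * (2 ^ τ * C'.card) := Nat.mul_le_mul_left _ hcard
          _ = 2 ^ (T1.card + τ) * C'.card := by rw [pow_add]; ring
      · rcases halt with ⟨t, ht, hT2, A, hA, hAd, hAS⟩ | ⟨hT2, T2, a2, hT2c, ha2⟩
        · left
          refine ⟨t + 1, by omega, ?_, A, ?_, hAd, ?_⟩
          · have e1 : K * T1.card ≤ (w + 1) * (M * K ^ (t + 1)) := by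
              calc K * T1.card ≤ K * ((w + 1) * M) := Nat.mul_le_mul_left _ hT1
                _ = (w + 1) * (M * K ^ 1) := by ring
                _ ≤ (w + 1) * (M * K ^ (t + 1)) :=
                    Nat.mul_le_mul_left _ (Nat.mul_le_mul_left _ (Nat.pow_le_pow_right hK (by omega)))
            have e2 : w ^ 2 * (M * K * K ^ t) = w ^ 2 * (M * K ^ (t + 1)) := by
              rw [pow_succ]; ring
            rw [e2] at hT2
            calc K * (T1.card + τ) = K * T1.card + K * τ := by ring
              _ ≤ (w + 1) * (M * K ^ (t + 1)) + w ^ 2 * (M * K ^ (t + 1)) := Nat.add_le_add e1 hT2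
              _ = (w + 1 + w ^ 2) * (M * K ^ (t + 1)) := by ring
              _ ≤ (w + 1) ^ 2 * (M * K ^ (t + 1)) := Nat.mul_le_mul_right _ (by nlinarith)
          · rw [hA, pow_succ]; ring
          · intro S hS
            exact ⟨(hAS S hS).1.trans (Nat.le_succ w), (hAS S hS).2⟩
        · right
          refine ⟨?_, T1 ∪ T2, fun i => if i ∈ T1 then a1 i else a2 i,
            (Finset.card_union_le _ _).trans (Nat.add_le_add_left hT2c _), ?_⟩
          · have e1 : T1.card ≤ (w + 1) * (M * K ^ (w + 1)) := by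
              calc T1.card ≤ (w + 1) * M := hT1
                _ = (w + 1) * (M * 1) := by ring
                _ ≤ (w + 1) * (M * K ^ (w + 1)) :=
                    Nat.mul_le_mul_left _ (Nat.mul_le_mul_left _ (Nat.one_le_pow _ _ hK))
            have e2 : w ^ 2 * (M * K * K ^ w) = w ^ 2 * (M * K ^ (w + 1)) := by
              rw [pow_succ]; ring
            rw [e2] at hT2
            calc T1.card + τ ≤ (w + 1) * (M * K ^ (w + 1)) + w ^ 2 * (M * K ^ (w + 1)) :=
                  Nat.add_le_add e1 hT2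
              _ = (w + 1 + w ^ 2) * (M * K ^ (w + 1)) := by ring
              _ ≤ (w + 1) ^ 2 * (M * K ^ (w + 1)) := Nat.mul_le_mul_right _ (by nlinarith)
          · intro x hx φ hφ
            by_cases hag : ∀ i ∈ φ.1, i ∈ T1 → φ.2 i = a1 i
            · -- modify `x` on `T1`
              set x' : ι → Bool := fun i => if i ∈ T1 then a2 i else x i with hx'
              have h1 : ∀ i ∈ T2, x' i = a2 i := by
                intro i hi
                by_cases hiT : i ∈ T1
                · simp only [hx', if_pos hiT]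
                · have := hx i (Finset.mem_union_right _ hi)
                  simp only [if_neg hiT] at this
                  simp only [hx', if_neg hiT, this]
              obtain ⟨i, hi, hne'⟩ := ha2 x' h1 (φ.1 \ T1, φ.2) ⟨φ, hφ, rfl, hag⟩
              change i ∈ φ.1 \ T1 at hi
              rw [Finset.mem_sdiff] at hi
              refine ⟨i, hi.1, ?_⟩
              simp only [hx', if_neg hi.2] at hne'
              exact hne'
            · push Not at hag
              obtain ⟨i, hi, hiT, hne'⟩ := hag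
              refine ⟨i, hi, ?_⟩
              have := hx i (Finset.mem_union_left _ hiT)
              simp only [if_pos hiT] at this
              rw [this]
              exact fun h => hne' h.symm

end Pool.Agent.Lib.MP_0430e4_lc.Stab
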