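import Pool.Agent.Lib.MP_0430e4_lc.TensorRate
import Pool.Agent.Lib.MP_0430e4_lc.TensorEntropy
import Pool.Agent.Lib.MP_0430e4_lc.Stab.Clean

/-!
# Asymptotic form
-/

set_option autoImplicit false
set_option linter.unusedSectionVars false

namespace Pool.Agent.Lib.MP_0430e4_lc.Stab

open Finset Tensor Filter Topology

/-- the gain per biased parity -/
noncomputable def gs (δ ε : ℝ) (k : ℕ) : ℝ := min (ε ^ 2 / 5) (((1 - 2 * δ) / 2) ^ k)

noncomputable def gain (δ ε : ℝ) (k : ℕ) : ℝ := gs δ ε k * ε ^ 2 / 2 / Real.log 2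

theorem gs_pos {δ ε : ℝ} (hδ2 : δ < 1 / 2) (hε : 0 < ε) (k : ℕ) : 0 < gs δ ε k := by
  unfold gs
  have : 0 < (1 - 2 * δ) / 2 := by linarith
  exact lt_min (by positivity) (by positivity)

theorem gain_pos {δ ε : ℝ} (hδ2 : δ < 1 / 2) (hε : 0 < ε) (k : ℕ) : 0 < gain δ ε k := by
  unfold gain
  have := gs_pos hδ2 hε k
  have := Real.log_pos (by norm_num : (1 : ℝ) < 2)
  positivity

theorem exists_cert_two (n : ℕ) {l : ℝ} (hl : l ≤ n) :
    ∃ h : (Fin n → Bool) → ℝ, IsCert l h ∧ Tensor.val h < 2 * Lam n l := by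
  have h1 := one_le_lam hl
  have h2 : Lam n l < 2 * Lam n l := by linarith
  obtain ⟨v, ⟨h, hh, rfl⟩, hv⟩ := exists_lt_of_csInf_lt (lam_nonempty hl) h2
  exact ⟨h, hh, hv⟩

theorem two_rpow (x : ℝ) : (2 : ℝ) ^ x = Real.exp (x * Real.log 2) := by
  rw [Real.rpow_def_of_pos (by norm_num), mul_comm]

theorem asym_bias {δ : ℝ} (hδ : 0 < δ) (hδ2 : δ < 1 / 2) (k : ℕ) {ε : ℝ} (hε : 0 < ε)
    (hε1 : ε ≤ 1) {η : ℝ} (hη : 0 < η) :
    ∃ N : ℕ, ∀ n : ℕ, N ≤ n → ∀ C : Finset (Fin n → Bool),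
      (∀ x ∈ C, ∀ y ∈ C, x ≠ y → δ * n ≤ hammingDist x y) →
      ∀ (m : ℕ) (V : Fin m → Finset (Fin n)), (∀ a b, a ≠ b → Disjoint (V a) (V b)) →
        (∀ a, (V a).Nonempty) → (∀ a, (V a).card ≤ k) →
        ((m * k : ℕ) : ℝ) ≤ (1 - 2 * δ) ^ 2 / 4 * n →
        (∀ j, ε * C.card ≤ |∑ x ∈ C, par (V j) x|) →
        (C.card : ℝ) ≤ 2 ^ ((ell δ + η) * n - gain δ ε k * m) := by
  -- choice of `δ'`
  have hcont : ContinuousAt ell δ := ell_continuousOn.continuousAt (Ioi_mem_nhds hδ)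
  have ht : Tendsto ell (𝓝[<] δ) (𝓝 (ell δ)) := hcont.tendsto.mono_left nhdsWithin_le_nhds
  have h1 : ∀ᶠ x in 𝓝[<] δ, ell x < ell δ + η / 3 := ht.eventually (gt_mem_nhds (by linarith))
  have h2 : ∀ᶠ x in 𝓝[<] δ, x ∈ Set.Ioo 0 δ := Ioo_mem_nhdsLT hδ
  obtain ⟨δ', hδ'1, hδ'2⟩ := (h1.and h2).exists
  obtain ⟨hδ'0, hδ'δ⟩ := hδ'2
  have h3 : ∀ᶠ n : ℕ in atTop, lexp δ' n / n < ell δ' + η / 3 :=
    (tendsto_ell hδ'0.le).eventually (gt_mem_nhds (by linarith))
  have h4 : Tendsto (fun n : ℕ => Real.logb 2 (2 / (δ - δ')) / (n : ℝ)) atTop (𝓝 0) :=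
    tendsto_const_div_atTop_nhds_zero_nat _
  have h5 : ∀ᶠ n : ℕ in atTop, Real.logb 2 (2 / (δ - δ')) / (n : ℝ) < η / 3 :=
    h4.eventually (gt_mem_nhds (by linarith))
  obtain ⟨N, hN⟩ := eventually_atTop.1 ((h3.and h5).and (eventually_ge_atTop 1))
  refine ⟨N, fun n hn C hC m V hV hne hk hkm hb => ?_⟩
  obtain ⟨⟨g3, g5⟩, g1⟩ := hN n hn
  have hn0 : (0 : ℝ) < n := by exact_mod_cast g1
  have hgap : 0 < δ - δ' := by linarith
  rw [div_lt_iff₀ hn0] at g3 g5
  obtain ⟨h, hh, hval⟩ := exists_cert_two n (level_le hδ'0.le n)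
  set s := gs δ ε k with hs
  have hspos : 0 < s := gs_pos hδ2 hε k
  have hs1 : s ≤ ε ^ 2 / 5 := min_le_left _ _
  have hs2 : s ≤ ((1 - 2 * δ) / 2) ^ k := min_le_right _ _
  have hε2 : ε ^ 2 ≤ 1 := by nlinarith
  have hc : 0 < 1 - 2 * δ' := by linarith
  set D := ⌈δ * n⌉₊ with hD
  have hDl : δ * n ≤ (D : ℝ) := Nat.le_ceil _
  have hDn : (D : ℝ) ≤ n := by
    have : D ≤ n := by
      apply Nat.ceil_le.2
      nlinarith
    exact_mod_cast this
  have hCD : ∀ x ∈ C, ∀ y ∈ C, x ≠ y → D ≤ hammingDist x y := by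
    intro x hx y hy hxy
    exact Nat.ceil_le.2 (hC x hx y hy hxy)
  have key := card_le_of_bias (c := 1 - 2 * δ') (s := s) (ε := ε) (k := k) hh hc
    (by rw [Fintype.card_fin]) V hV hne hk (by
      rw [Fintype.card_fin]
      refine hkm.trans ?_
      apply mul_le_mul_of_nonneg_right _ hn0.le
      have : (1 - 2 * δ) ^ 2 ≤ (1 - 2 * δ') ^ 2 := by
        apply pow_le_pow_left₀ (by linarith)
        linarith
      linarith) (by linarith) hspos.le (by linarith) (by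
      refine hs2.trans ?_
      apply pow_le_pow_left₀ (by linarith)
      linarith) hε.le C D hCD (by
      rw [Fintype.card_fin]
      nlinarith) hb
  rw [Fintype.card_fin] at key
  -- simplify
  have e1 : gain δ ε k * Real.log 2 * m ≤ m * (s * ε ^ 2 - 2 * s ^ 2) := by
    have hl2 : Real.log 2 ≠ 0 := (Real.log_pos (by norm_num)).ne'
    have e2 : gain δ ε k * Real.log 2 = s * ε ^ 2 / 2 := by
      unfold gain
      rw [div_mul_cancel₀ _ hl2]
    rw [e2, mul_comm]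
    apply mul_le_mul_of_nonneg_left _ (Nat.cast_nonneg m)
    nlinarith
  set E := Real.exp (m * (s * ε ^ 2 - 2 * s ^ 2)) with hE
  have e3 : (2 : ℝ) ^ (gain δ ε k * m) ≤ E := by
    rw [two_rpow, hE]
    apply Real.exp_le_exp.2
    linarith
  have e4 : (C.card : ℝ) * 2 ^ (gain δ ε k * m) ≤ 2 / (δ - δ') * Lam n ((1 - 2 * δ') * n) := by
    have f1 : 2 * ((δ - δ') * n) ≤ (1 - 2 * δ') * n - (n - 2 * (D : ℝ)) := by nlinarith
    have f0 : 0 ≤ (1 - 2 * δ') * n - (n - 2 * (D : ℝ)) := le_trans (by positivity) f1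
    have f2 : (2 * n) * ((δ - δ') * ((C.card : ℝ) * 2 ^ (gain δ ε k * m))) ≤
        (2 * n) * (2 * Lam n ((1 - 2 * δ') * n)) := by
      calc (2 * n) * ((δ - δ') * ((C.card : ℝ) * 2 ^ (gain δ ε k * m))) =
          (2 * ((δ - δ') * n)) * (C.card * 2 ^ (gain δ ε k * m)) := by ring
        _ ≤ ((1 - 2 * δ') * n - (n - 2 * (D : ℝ))) * (C.card * E) := by gcongr
        _ ≤ 2 * D * Tensor.val h := key
        _ ≤ 2 * n * (2 * Lam n ((1 - 2 * δ') * n)) := by
            have := one_le_val hh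
            gcongr
    have f3 := le_of_mul_le_mul_left f2 (by positivity)
    rw [div_mul_eq_mul_div, le_div_iff₀ hgap]
    linarith
  have hL := one_le_lam (level_le hδ'0.le n)
  have e5 : 2 / (δ - δ') * Lam n ((1 - 2 * δ') * n) ≤ 2 ^ ((ell δ + η) * n) := by
    have f1 : 2 / (δ - δ') * Lam n ((1 - 2 * δ') * n) =
        2 ^ (Real.logb 2 (2 / (δ - δ')) + lexp δ' n) := by
      unfold lexp
      rw [← Real.logb_mul (by positivity) (by linarith),
        Real.rpow_logb (by norm_num) (by norm_num) (by positivity)]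
    rw [f1]
    apply Real.rpow_le_rpow_of_exponent_le (by norm_num)
    nlinarith
  rw [Real.rpow_sub (by norm_num), le_div_iff₀ (Real.rpow_pos_of_pos (by norm_num) _)]
  exact e4.trans e5

/-- A family of disjoint biased parities of linear size. -/
theorem biased_family {δ : ℝ} (hδ : 0 < δ) (hδ2 : δ < 1 / 2) (k : ℕ) {ε : ℝ} (hε : 0 < ε) :
    ∃ c : ℝ, 0 < c ∧ ∃ N : ℕ, ∀ n : ℕ, N ≤ n → ∀ C : Finset (Fin n → Bool),
      (∀ x ∈ C, ∀ y ∈ C, x ≠ y → δ * n ≤ hammingDist x y) →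
      ∀ A : Finset (Finset (Fin n)), (A : Set (Finset (Fin n))).PairwiseDisjoint id →
        (∀ S ∈ A, S.Nonempty ∧ S.card ≤ k ∧ ε * C.card ≤ |∑ x ∈ C, par S x|) →
        ε * n ≤ A.card → (C.card : ℝ) ≤ 2 ^ ((ell δ - c) * n) := by
  wlog hε1 : ε ≤ 1 generalizing ε with H
  · push Not at hε1
    obtain ⟨c, hc, N, hN⟩ := H one_pos le_rfl
    refine ⟨c, hc, N, fun n hn C hC A hA hAS hcard => ?_⟩
    have hn0 : (0 : ℝ) ≤ n := Nat.cast_nonneg n
    have hC0 : (0 : ℝ) ≤ C.card := Nat.cast_nonneg _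
    refine hN n hn C hC A hA (fun S hS => ⟨(hAS S hS).1, (hAS S hS).2.1, ?_⟩) (by nlinarith)
    refine le_trans ?_ (hAS S hS).2.2
    nlinarith
  set ρ := min ε ((1 - 2 * δ) ^ 2 / (4 * (k + 1))) with hρ
  have hk1 : (0 : ℝ) < k + 1 := by positivity
  have h12 : 0 < 1 - 2 * δ := by linarith
  have hρ0 : 0 < ρ := lt_min hε (by positivity)
  have hρ1 : ρ ≤ ε := min_le_left _ _
  have hρ2 : ρ ≤ (1 - 2 * δ) ^ 2 / (4 * (k + 1)) := min_le_right _ _
  have hg : 0 < gain δ ε k := gain_pos hδ2 hε k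
  set g := gain δ ε k with hgdef
  obtain ⟨N, hN⟩ := asym_bias hδ hδ2 k hε hε1 (η := g * ρ / 4) (by positivity)
  obtain ⟨N', hN'⟩ := exists_nat_ge (2 / ρ)
  refine ⟨g * ρ / 4, by positivity, max N N', fun n hn C hC A hA hAS hcard => ?_⟩
  have hnN : N ≤ n := (le_max_left _ _).trans hn
  have hnN' : (2 / ρ : ℝ) ≤ n := hN'.trans (by exact_mod_cast (le_max_right _ _).trans hn)
  have hn0 : (0 : ℝ) ≤ n := Nat.cast_nonneg n
  rw [div_le_iff₀ hρ0] at hnN'
  set m := ⌊ρ * n⌋₊ with hm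
  have hm1 : (m : ℝ) ≤ ρ * n := Nat.floor_le (by positivity)
  have hm2 : ρ * n < m + 1 := Nat.lt_floor_add_one _
  have hmA : m ≤ A.card := by
    have : (m : ℝ) ≤ A.card := by nlinarith
    exact_mod_cast this
  obtain ⟨B, hBA, hB⟩ := Finset.exists_subset_card_eq hmA
  set e := B.equivFinOfCardEq hB with he
  have hmem : ∀ a : Fin m, ((e.symm a : B) : Finset (Fin n)) ∈ A := fun a => hBA (e.symm a).2
  have key := hN n hnN C hC m (fun a => ((e.symm a : B) : Finset (Fin n)))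
    (by
      intro a b hab
      apply hA (hmem a) (hmem b)
      intro h
      exact hab (e.symm.injective (Subtype.ext h)))
    (fun a => (hAS _ (hmem a)).1) (fun a => (hAS _ (hmem a)).2.1)
    (by
      push_cast
      have h1 : (m : ℝ) * k ≤ (1 - 2 * δ) ^ 2 / (4 * (k + 1)) * n * (k + 1) := by
        have : (m : ℝ) ≤ (1 - 2 * δ) ^ 2 / (4 * (k + 1)) * n :=
          hm1.trans (mul_le_mul_of_nonneg_right hρ2 hn0)
        calc (m : ℝ) * k ≤ m * (k + 1) := by
              apply mul_le_mul_of_nonneg_left _ (Nat.cast_nonneg m)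
              linarith
          _ ≤ _ := mul_le_mul_of_nonneg_right this hk1.le
      have h2 : (1 - 2 * δ) ^ 2 / (4 * ((k : ℝ) + 1)) * n * (k + 1) = (1 - 2 * δ) ^ 2 / 4 * n := by
        field_simp
      linarith)
    (fun a => (hAS _ (hmem a)).2.2)
  refine key.trans ?_
  apply Real.rpow_le_rpow_of_exponent_le (by norm_num)
  have h3 : ρ * n / 2 ≤ m := by linarith
  have h4 : g * (ρ * n / 2) ≤ g * m := mul_le_mul_of_nonneg_left h3 hg.le
  nlinarith

/-- number of words in a ball -/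
theorem card_ball_le {n : ℕ} {θ : ℝ} (hθ0 : 0 < θ) (hθ : θ ≤ 1 / 2) (c : Fin n → Bool) :
    ((univ.filter fun x : Fin n → Bool => (hammingDist x c : ℝ) ≤ θ * n).card : ℝ) ≤
      Real.exp (n * Real.binEntropy θ) := by
  have hm : ((⌊θ * n⌋₊ : ℕ) : ℝ) ≤ θ * n := Nat.floor_le (by positivity)
  refine le_trans ?_ (card_small_le hθ0 hθ hm)
  have hinj : Set.InjOn (fun x : Fin n → Bool => univ.filter fun i => x i ≠ c i)
      (univ.filter fun x : Fin n → Bool => (hammingDist x c : ℝ) ≤ θ * n) := by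
    intro x _ y _ hxy
    funext i
    have h1 : i ∈ univ.filter (fun i => x i ≠ c i) ↔ i ∈ univ.filter (fun i => y i ≠ c i) := by
      have : (univ.filter fun i => x i ≠ c i) = univ.filter fun i => y i ≠ c i := hxy
      rw [this]
    simp only [mem_filter, mem_univ, true_and] at h1
    cases hx : x i <;> cases hy : y i <;> cases hc : c i <;> simp_all
  have h2 := Finset.card_le_card_of_injOn _ (t := univ.filter fun T : Finset (Fin n) =>
    T.card < ⌊θ * n⌋₊ + 1) (by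
      intro x hx
      have hx' := (Finset.mem_filter.1 (Finset.mem_coe.1 hx)).2
      rw [Finset.mem_coe, Finset.mem_filter]
      refine ⟨mem_univ _, Nat.lt_succ_of_le ?_⟩
      exact Nat.le_floor hx') hinj
  exact_mod_cast h2

theorem card_fixed {n : ℕ} (T : Finset (Fin n)) (a : Fin n → Bool) :
    2 ^ n ≤ 2 ^ T.card * (univ.filter fun x : Fin n → Bool => ∀ i ∈ T, x i = a i).card := by
  have h1 : (univ.filter fun x : Fin n → Bool => ∀ i ∈ T, x i = a i) =
      Fintype.piFinset fun i => if i ∈ T then {a i} else univ := by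
    ext x
    simp only [mem_filter, mem_univ, true_and, Fintype.mem_piFinset]
    apply forall_congr'
    intro i
    by_cases hi : i ∈ T <;> simp [hi]
  rw [h1, Fintype.card_piFinset]
  have h2 : ∏ i : Fin n, (if i ∈ T then ({a i} : Finset Bool) else univ).card =
      2 ^ (n - T.card) := by
    have h3 : ∀ i : Fin n, (if i ∈ T then ({a i} : Finset Bool) else univ).card =
        if i ∈ T then 1 else 2 := by
      intro i
      split_ifs <;> simp
    simp only [h3]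
    rw [Finset.prod_ite]
    simp only [Finset.prod_const, one_pow, one_mul]
    congr 1
    have h4 := Finset.card_filter_add_card_filter_not (s := (univ : Finset (Fin n)))
      (fun i => i ∈ T)
    have h5 : (univ.filter fun i => i ∈ T) = T := by ext; simp
    rw [h5, Finset.card_univ, Fintype.card_fin] at h4
    omega
  rw [h2, ← pow_add]
  have : T.card ≤ n := by
    have := Finset.card_le_univ T
    rwa [Fintype.card_fin] at this
  exact Nat.pow_le_pow_right (by norm_num) (by omega)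

/-- Large codes have a `k`-local closure that contains a subcube of small codimension. -/
theorem closure_subcube {δ : ℝ} (hδ : 0 < δ) (hδ2 : δ < 1 / 2) (k : ℕ) {ρ₀ : ℝ} (hρ₀ : 0 < ρ₀) :
    ∃ c : ℝ, 0 < c ∧ ∃ N : ℕ, ∀ n : ℕ, N ≤ n → ∀ C : Finset (Fin n → Bool),
      (∀ x ∈ C, ∀ y ∈ C, x ≠ y → δ * n ≤ hammingDist x y) →
      (2 : ℝ) ^ ((ell δ - c) * n) < C.card →
      ∃ (T : Finset (Fin n)) (a : Fin n → Bool), (T.card : ℝ) ≤ ρ₀ * n ∧
        ∀ x : Fin n → Bool, (∀ i ∈ T, x i = a i) →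
          ∀ S : Finset (Fin n), S.card ≤ k → ∃ c ∈ C, ∀ i ∈ S, c i = x i := by
  set ε : ℝ := (1 / 2) ^ k with hε
  have hε0 : 0 < ε := by positivity
  have hε1 : ε ≤ 1 := pow_le_one₀ (by norm_num) (by norm_num)
  have hg : 0 < gain δ ε k := gain_pos hδ2 hε0 k
  set g := gain δ ε k with hgdef
  obtain ⟨K, hK⟩ := exists_nat_ge (max 1 (2 * (k : ℝ) ^ 2 / g))
  have hK1 : 1 ≤ K := by
    have : (1 : ℝ) ≤ K := (le_max_left _ _).trans hK
    exact_mod_cast this
  have hK2 : 2 * (k : ℝ) ^ 2 ≤ K * g := by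
    have : 2 * (k : ℝ) ^ 2 / g ≤ K := (le_max_right _ _).trans hK
    rwa [div_le_iff₀ hg] at this
  have hKk : (0 : ℝ) < (K : ℝ) ^ k := by
    have : (0 : ℝ) < K := by exact_mod_cast hK1
    positivity
  have h12 : 0 < 1 - 2 * δ := by linarith
  set ρ := min ((1 - 2 * δ) ^ 2 / (4 * ((k + 1) * (K : ℝ) ^ k)))
    (ρ₀ / (((k : ℝ) ^ 2 + 1) * (K : ℝ) ^ k)) with hρ
  have hρ0 : 0 < ρ := lt_min (by positivity) (by positivity)
  have hρ1 : ρ * ((k + 1) * (K : ℝ) ^ k) ≤ (1 - 2 * δ) ^ 2 / 4 := by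
    have : ρ ≤ (1 - 2 * δ) ^ 2 / (4 * ((k + 1) * (K : ℝ) ^ k)) := min_le_left _ _
    rw [le_div_iff₀ (by positivity)] at this
    linarith
  have hρ2 : ρ * (((k : ℝ) ^ 2 + 1) * (K : ℝ) ^ k) ≤ ρ₀ := by
    have : ρ ≤ ρ₀ / (((k : ℝ) ^ 2 + 1) * (K : ℝ) ^ k) := min_le_right _ _
    rwa [le_div_iff₀ (by positivity)] at this
  obtain ⟨N1, hN1⟩ := asym_bias hδ hδ2 k hε0 hε1 (η := g * ρ / 8) (by positivity)
  obtain ⟨N3, hN3⟩ := exists_nat_ge (2 / ρ)
  refine ⟨g * ρ / 8, by positivity, max N1 (max N3 1), fun n hn C hC hlarge => ?_⟩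
  have hnN1 : N1 ≤ n := (le_max_left _ _).trans hn
  have hnN3 : (2 / ρ : ℝ) ≤ n :=
    hN3.trans (by exact_mod_cast (le_max_left _ _).trans ((le_max_right _ _).trans hn))
  have hn1 : 1 ≤ n := (le_max_right _ _).trans ((le_max_right _ _).trans hn)
  have hn0 : (0 : ℝ) < n := by exact_mod_cast hn1
  rw [div_le_iff₀ hρ0] at hnN3
  have hCne : C.Nonempty := by
    rw [← Finset.card_pos]
    have h0 : (0 : ℝ) < 2 ^ ((ell δ - g * ρ / 8) * n) := Real.rpow_pos_of_pos (by norm_num) _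
    exact_mod_cast h0.trans hlarge
  set M := ⌊ρ * n⌋₊ with hM
  have hM1 : (M : ℝ) ≤ ρ * n := Nat.floor_le (by positivity)
  have hM2 : ρ * n < M + 1 := Nat.lt_floor_add_one _
  set Φ : Set (Finset (Fin n) × (Fin n → Bool)) :=
    {φ | φ.1.card ≤ k ∧ ∀ c ∈ C, Sat φ c} with hΦ
  obtain ⟨C', τ, hC'C, hcard, halt⟩ := cleaning hK1 k C M Φ hCne (fun φ hφ => hφ.1)
    (fun φ hφ => hφ.2)
  have hcardR : (C.card : ℝ) ≤ 2 ^ (τ : ℝ) * C'.card := by
    rw [Real.rpow_natCast]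
    exact_mod_cast hcard
  have hC'ne : C' ≠ ∅ := by
    intro h0
    rw [h0, Finset.card_empty, mul_zero] at hcard
    have := hCne.card_pos
    omega
  rcases halt with ⟨t, ht, hτ, A, hA, hAd, hAS⟩ | ⟨hτ, T, a, hT, ha⟩
  · -- many disjoint constraints
    exfalso
    have hex : ∀ S ∈ A, ∃ V : Finset (Fin n), V ⊆ S ∧ V.Nonempty ∧
        ε * C'.card ≤ |∑ x ∈ C', par V x| := by
      intro S hS
      obtain ⟨hSk, p, hp⟩ := hAS S hS
      obtain ⟨V, hV⟩ := exists_bias (C := C') (S := S) (p := p) (fun c hc => hp c hc)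
      rcases hV with ⟨h1, h2, h3⟩ | h0
      · refine ⟨V, h1, h2, le_trans ?_ h3⟩
        apply mul_le_mul_of_nonneg_right _ (Nat.cast_nonneg _)
        exact pow_le_pow_of_le_one (by norm_num) (by norm_num) hSk
      · exact absurd h0 hC'ne
    choose! V hV1 hV2 hV3 using hex
    set e := A.equivFinOfCardEq hA with he
    have hmem : ∀ b : Fin (M * K ^ t), ((e.symm b : A) : Finset (Fin n)) ∈ A :=
      fun b => (e.symm b).2
    have hMt : (M * K ^ t : ℕ) ≤ M * K ^ k :=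
      Nat.mul_le_mul_left _ (Nat.pow_le_pow_right hK1 ht)
    have key := hN1 n hnN1 C' (fun x hx y hy => hC x (hC'C hx) y (hC'C hy)) (M * K ^ t)
      (fun b => V ((e.symm b : A) : Finset (Fin n)))
      (by
        intro b b' hbb
        have hdis : Disjoint ((e.symm b : A) : Finset (Fin n)) ((e.symm b' : A) : Finset (Fin n)) := by
          apply hAd (hmem b) (hmem b')
          intro h
          exact hbb (e.symm.injective (Subtype.ext h))
        exact Finset.disjoint_of_subset_left (hV1 _ (hmem b))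
          (Finset.disjoint_of_subset_right (hV1 _ (hmem b')) hdis))
      (fun b => hV2 _ (hmem b))
      (fun b => (Finset.card_le_card (hV1 _ (hmem b))).trans (hAS _ (hmem b)).1)
      (by
        have h1 : ((M * K ^ t * k : ℕ) : ℝ) ≤ (M * K ^ k * (k + 1) : ℕ) := by
          exact_mod_cast Nat.mul_le_mul hMt (Nat.le_succ k)
        refine h1.trans ?_
        push_cast
        calc (M : ℝ) * K ^ k * (k + 1) ≤ (ρ * n) * K ^ k * (k + 1) := by gcongr
          _ = ρ * ((k + 1) * (K : ℝ) ^ k) * n := by ring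
          _ ≤ (1 - 2 * δ) ^ 2 / 4 * n := mul_le_mul_of_nonneg_right hρ1 hn0.le)
      (fun b => hV3 _ (hmem b))
    have h5 : (τ : ℝ) ≤ g / 2 * (M * K ^ t : ℕ) := by
      have h6 : ((K * τ : ℕ) : ℝ) ≤ ((k ^ 2 * (M * K ^ t) : ℕ) : ℝ) := by exact_mod_cast hτ
      push_cast at h6
      have hKpos : (0 : ℝ) < K := by exact_mod_cast hK1
      refine le_of_mul_le_mul_left ?_ hKpos
      calc (K : ℝ) * τ ≤ (k : ℝ) ^ 2 * (M * K ^ t) := h6
        _ ≤ (K * g / 2) * (M * K ^ t) := by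
            apply mul_le_mul_of_nonneg_right _ (by positivity)
            linarith
        _ = K * (g / 2 * ((M * K ^ t : ℕ) : ℝ)) := by push_cast; ring
    have h7 : (M : ℝ) ≤ ((M * K ^ t : ℕ) : ℝ) := by
      exact_mod_cast Nat.le_mul_of_pos_right M (Nat.pos_of_ne_zero (by positivity))
    refine absurd hlarge (not_lt.2 ?_)
    calc (C.card : ℝ) ≤ 2 ^ (τ : ℝ) * C'.card := hcardR
      _ ≤ 2 ^ (τ : ℝ) * 2 ^ ((ell δ + g * ρ / 8) * n - g * (M * K ^ t : ℕ)) := by gcongr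
      _ = 2 ^ ((τ : ℝ) + ((ell δ + g * ρ / 8) * n - g * (M * K ^ t : ℕ))) := by
          rw [← Real.rpow_add (by norm_num)]
      _ ≤ 2 ^ ((ell δ - g * ρ / 8) * n) := by
          apply Real.rpow_le_rpow_of_exponent_le (by norm_num)
          have h8 : ρ * n / 2 ≤ M := by linarith
          have h9 : g / 2 * (ρ * n / 2) ≤ g / 2 * ((M * K ^ t : ℕ) : ℝ) :=
            mul_le_mul_of_nonneg_left (h8.trans h7) (by positivity)
          nlinarith
  · -- few coordinates meet all constraints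
    refine ⟨T, a, ?_, fun x hx S hS => ?_⟩
    · have e1 : (T.card : ℝ) ≤ ((k ^ 2 * (M * K ^ k) : ℕ) : ℝ) := by
        exact_mod_cast hT.trans hτ
      refine e1.trans ?_
      push_cast
      calc (k : ℝ) ^ 2 * (M * K ^ k) ≤ ((k : ℝ) ^ 2 + 1) * ((ρ * n) * K ^ k) := by
            gcongr
            linarith
        _ = ρ * (((k : ℝ) ^ 2 + 1) * (K : ℝ) ^ k) * n := by ring
        _ ≤ ρ₀ * n := mul_le_mul_of_nonneg_right hρ2 hn0.le
    · by_contra hcon
      push Not at hcon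
      obtain ⟨i, hi, hne⟩ := ha x hx (S, x) ⟨hS, fun c hc => hcon c hc⟩
      exact hne rfl

/-- A subcube of small codimension is not covered by the balls of radius `θ n` about a code. -/
theorem exists_far_pos {δ : ℝ} (hδ : 0 < δ) (hδ2 : δ < 1 / 2) {θ : ℝ} (hθ0 : 0 < θ)
    (hθ : θ ≤ 1 / 2) (hθe : ell δ < 1 - Real.binEntropy θ / Real.log 2) :
    ∃ ρ : ℝ, 0 < ρ ∧ ∃ N : ℕ, ∀ n : ℕ, N ≤ n → ∀ C : Finset (Fin n → Bool),
      (∀ x ∈ C, ∀ y ∈ C, x ≠ y → δ * n ≤ hammingDist x y) →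
      ∀ (T : Finset (Fin n)) (a : Fin n → Bool), (T.card : ℝ) ≤ ρ * n →
        ∃ x : Fin n → Bool, (∀ i ∈ T, x i = a i) ∧ ∀ c ∈ C, θ * n < hammingDist x c := by
  have hlog2 : 0 < Real.log 2 := Real.log_pos (by norm_num)
  set gap := 1 - Real.binEntropy θ / Real.log 2 - ell δ with hgap
  have hgap0 : 0 < gap := by rw [hgap]; linarith
  obtain ⟨N2, hN2⟩ := asym_bias hδ hδ2 0 one_pos le_rfl (η := gap / 4) (by positivity)
  refine ⟨gap / 4, by positivity, max N2 1, fun n hn C hC T a hT => ?_⟩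
  have hnN2 : N2 ≤ n := (le_max_left _ _).trans hn
  have hn1 : 1 ≤ n := (le_max_right _ _).trans hn
  have hn0 : (0 : ℝ) < n := by exact_mod_cast hn1
  by_contra hcon
  push Not at hcon
  have hcov : ∀ x : Fin n → Bool, (∀ i ∈ T, x i = a i) →
      ∃ c ∈ C, (hammingDist x c : ℝ) ≤ θ * n := hcon
  have h1 := card_fixed T a
  have h2 : (univ.filter fun x : Fin n → Bool => ∀ i ∈ T, x i = a i) ⊆
      C.biUnion fun c => univ.filter fun x : Fin n → Bool => (hammingDist x c : ℝ) ≤ θ * n := by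
    intro x hx
    obtain ⟨c, hc, hd⟩ := hcov x (Finset.mem_filter.1 hx).2
    exact Finset.mem_biUnion.2 ⟨c, hc, Finset.mem_filter.2 ⟨mem_univ _, hd⟩⟩
  have h3 : ((univ.filter fun x : Fin n → Bool => ∀ i ∈ T, x i = a i).card : ℝ) ≤
      C.card * Real.exp (n * Real.binEntropy θ) := by
    have h4 : ((C.biUnion fun c => univ.filter fun x : Fin n → Bool =>
        (hammingDist x c : ℝ) ≤ θ * n).card : ℝ) ≤
        ∑ c ∈ C, ((univ.filter fun x : Fin n → Bool => (hammingDist x c : ℝ) ≤ θ * n).card : ℝ) := by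
      exact_mod_cast Finset.card_biUnion_le
    refine (by exact_mod_cast Finset.card_le_card h2 :
      ((univ.filter fun x : Fin n → Bool => ∀ i ∈ T, x i = a i).card : ℝ) ≤ _).trans
      (h4.trans ?_)
    rw [← nsmul_eq_mul, ← Finset.sum_const]
    exact Finset.sum_le_sum fun c _ => card_ball_le hθ0 hθ c
  have h5 : (2 : ℝ) ^ (n : ℝ) ≤ 2 ^ (T.card : ℝ) * (C.card * Real.exp (n * Real.binEntropy θ)) := by
    have h6 : ((2 ^ n : ℕ) : ℝ) ≤ ((2 ^ T.card *
      (univ.filter fun x : Fin n → Bool => ∀ i ∈ T, x i = a i).card : ℕ) : ℝ) := by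
      exact_mod_cast h1
    push_cast at h6
    rw [Real.rpow_natCast, Real.rpow_natCast]
    refine h6.trans ?_
    gcongr
  have h7 := hN2 n hnN2 C hC 0 (fun b => b.elim0) (fun b => b.elim0) (fun b => b.elim0)
    (fun b => b.elim0) (by
      simp only [zero_mul, Nat.cast_zero]
      positivity) (fun b => b.elim0)
  simp only [Nat.cast_zero, mul_zero, sub_zero] at h7
  have h8 : Real.exp (n * Real.binEntropy θ) = 2 ^ (n * (Real.binEntropy θ / Real.log 2)) := by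
    rw [two_rpow]
    congr 1
    field_simp
  rw [h8] at h5
  have h10 : (2 : ℝ) ^ (n : ℝ) ≤ 2 ^ (gap / 4 * n + ((ell δ + gap / 4) * n +
      n * (Real.binEntropy θ / Real.log 2))) := by
    rw [Real.rpow_add (by norm_num), Real.rpow_add (by norm_num)]
    refine h5.trans ?_
    gcongr
    norm_num
  rw [Real.rpow_le_rpow_left_iff (by norm_num)] at h10
  have h11 : Real.binEntropy θ / Real.log 2 = 1 - ell δ - gap := by rw [hgap]; ring
  rw [h11] at h10
  nlinarith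

/-- The same with `θ = 0` included. -/
theorem exists_far {δ : ℝ} (hδ : 0 < δ) (hδ2 : δ < 1 / 2) {θ : ℝ} (hθ0 : 0 ≤ θ)
    (hθ : θ ≤ 1 / 2) (hθe : ell δ < 1 - Real.binEntropy θ / Real.log 2) :
    ∃ ρ : ℝ, 0 < ρ ∧ ∃ N : ℕ, ∀ n : ℕ, N ≤ n → ∀ C : Finset (Fin n → Bool),
      (∀ x ∈ C, ∀ y ∈ C, x ≠ y → δ * n ≤ hammingDist x y) →
      ∀ (T : Finset (Fin n)) (a : Fin n → Bool), (T.card : ℝ) ≤ ρ * n →
        ∃ x : Fin n → Bool, (∀ i ∈ T, x i = a i) ∧ ∀ c ∈ C, θ * n < hammingDist x c := by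
  have hlog2 : 0 < Real.log 2 := Real.log_pos (by norm_num)
  have hell := ell_nonneg hδ.le
  have hlt : θ < 1 / 2 := by
    rcases hθ.lt_or_eq with h | h
    · exact h
    · exfalso
      rw [h] at hθe
      have : Real.binEntropy (1 / 2) = Real.log 2 := by
        rw [one_div]; exact Real.binEntropy_two_inv
      rw [this, div_self hlog2.ne'] at hθe
      linarith
  have hcont : Tendsto (fun x : ℝ => 1 - Real.binEntropy x / Real.log 2) (𝓝[>] θ)
      (𝓝 (1 - Real.binEntropy θ / Real.log 2)) := by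
    apply Tendsto.const_sub
    apply Tendsto.div_const
    exact (Real.binEntropy_continuous.tendsto θ).mono_left nhdsWithin_le_nhds
  have h1 : ∀ᶠ x in 𝓝[>] θ, ell δ < 1 - Real.binEntropy x / Real.log 2 :=
    hcont.eventually (lt_mem_nhds hθe)
  have h2 : ∀ᶠ x in 𝓝[>] θ, x ∈ Set.Ioo θ (1 / 2) := Ioo_mem_nhdsGT hlt
  obtain ⟨θ', hθ'1, hθ'2⟩ := (h1.and h2).exists
  obtain ⟨ρ, hρ, N, hN⟩ := exists_far_pos hδ hδ2 (hθ0.trans_lt hθ'2.1) hθ'2.2.le hθ'1
  refine ⟨ρ, hρ, N, fun n hn C hC T a hT => ?_⟩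
  obtain ⟨x, hx, hd⟩ := hN n hn C hC T a hT
  exact ⟨x, hx, fun c hc =>
    (mul_le_mul_of_nonneg_right hθ'2.1.le (Nat.cast_nonneg n)).trans_lt (hd c hc)⟩

/-- An unusual pattern frequency gives a biased parity. -/
theorem bias_of_freq {ι : Type*} [Fintype ι] [DecidableEq ι] {C : Finset (ι → Bool)}
    (hC : C.Nonempty) {S : Finset ι} {ε : ℝ} (hε : 0 < ε) {p : ι → Bool}
    {F : Finset (ι → Bool)} (hF : ∀ c, c ∈ F ↔ c ∈ C ∧ ∀ i ∈ S, c i = p i)
    (h : ε ≤ |(F.card : ℝ) / C.card - (1 / 2) ^ S.card|) :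
    ∃ V : Finset ι, V ⊆ S ∧ V.Nonempty ∧ ε * C.card ≤ |∑ x ∈ C, par V x| := by
  by_contra hcon
  push Not at hcon
  have hC0 : (0 : ℝ) < C.card := by exact_mod_cast hC.card_pos
  have h1 : (F.card : ℝ) =
      (1 / 2) ^ S.card * ∑ V ∈ S.powerset, par V p * ∑ x ∈ C, par V x := by
    have hFC : F = C.filter fun c => ∀ i ∈ S, c i = p i := by
      ext c
      rw [hF, Finset.mem_filter]
    rw [hFC]
    have e1 : ∀ x : ι → Bool, (if ∀ i ∈ S, x i = p i then (1 : ℝ) else 0) =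
        (1 / 2) ^ S.card * ∑ V ∈ S.powerset, par V p * par V x := by
      intro x
      have e2 : ∑ V ∈ S.powerset, par V p * par V x = ∏ i ∈ S, (1 + sgn (p i) * sgn (x i)) := by
        rw [Finset.prod_one_add]
        apply Finset.sum_congr rfl
        intro V _
        unfold par
        rw [Finset.prod_mul_distrib]
      rw [e2]
      split_ifs with hx
      · have e3 : ∏ i ∈ S, (1 + sgn (p i) * sgn (x i)) = 2 ^ S.card := by
          rw [← Finset.prod_const]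
          apply Finset.prod_congr rfl
          intro i hi
          rw [sgn_mul, if_pos (hx i hi).symm]
          norm_num
        rw [e3, ← mul_pow]
        norm_num
      · push Not at hx
        obtain ⟨i, hi, hne⟩ := hx
        have e3 : ∏ i ∈ S, (1 + sgn (p i) * sgn (x i)) = 0 := by
          apply Finset.prod_eq_zero hi
          rw [sgn_mul, if_neg (fun h => hne h.symm)]
          norm_num
        rw [e3, mul_zero]
    rw [Finset.card_filter]
    push_cast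
    rw [Finset.sum_congr rfl (fun x _ => e1 x), ← Finset.mul_sum]
    congr 1
    simp only [Finset.mul_sum]
    exact Finset.sum_comm
  have hmem : ∅ ∈ S.powerset := Finset.empty_mem_powerset S
  rw [← Finset.add_sum_erase _ _ hmem] at h1
  have e4 : par (∅ : Finset ι) p * ∑ x ∈ C, par (∅ : Finset ι) x = C.card := by
    unfold par
    simp
  rw [e4] at h1
  set R := ∑ V ∈ S.powerset.erase ∅, par V p * ∑ x ∈ C, par V x with hR
  have h2 : |R| ≤ (2 ^ S.card - 1) * (ε * C.card) := by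
    have e5 : |R| ≤ ∑ V ∈ S.powerset.erase ∅, ε * C.card := by
      refine (Finset.abs_sum_le_sum_abs _ _).trans ?_
      apply Finset.sum_le_sum
      intro V hV
      rw [Finset.mem_erase, Finset.mem_powerset] at hV
      rw [abs_mul, par_abs, one_mul]
      exact (hcon V hV.2 (Finset.nonempty_iff_ne_empty.2 hV.1)).le
    rw [Finset.sum_const, Finset.card_erase_of_mem hmem, Finset.card_powerset, nsmul_eq_mul] at e5
    have h1 : (1 : ℕ) ≤ 2 ^ S.card := Nat.one_le_two_pow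
    rw [Nat.cast_sub h1] at e5
    push_cast at e5
    exact e5
  have h3 : (F.card : ℝ) / C.card - (1 / 2) ^ S.card =
      (1 / 2) ^ S.card * R / C.card := by
    rw [h1]
    field_simp
    ring
  rw [h3, abs_div, abs_mul, abs_of_pos hC0, abs_of_pos (by positivity : (0 : ℝ) < (1 / 2) ^ S.card),
    le_div_iff₀ hC0] at h
  have h4 : (1 / 2 : ℝ) ^ S.card * |R| ≤ (1 / 2) ^ S.card * ((2 ^ S.card - 1) * (ε * C.card)) :=
    mul_le_mul_of_nonneg_left h2 (by positivity)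
  have h5 : (1 / 2 : ℝ) ^ S.card * ((2 ^ S.card - 1) * (ε * C.card)) < ε * C.card := by
    have e9 : (1 / 2 : ℝ) ^ S.card * (2 : ℝ) ^ S.card = 1 := by
      rw [← mul_pow]; norm_num
    have e10 : 0 < (1 / 2 : ℝ) ^ S.card * (ε * C.card) := by positivity
    calc (1 / 2 : ℝ) ^ S.card * ((2 ^ S.card - 1) * (ε * C.card)) =
        ((1 / 2 : ℝ) ^ S.card * (2 : ℝ) ^ S.card) * (ε * C.card) -
          (1 / 2 : ℝ) ^ S.card * (ε * C.card) := by ring
      _ < ε * C.card := by rw [e9, one_mul]; linarith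
  linarith

/-- A linear number of disjoint sets of bounded size on which the code is not uniform. -/
theorem irregular_family {δ : ℝ} (hδ : 0 < δ) (hδ2 : δ < 1 / 2) (k : ℕ) {ε : ℝ} (hε : 0 < ε) :
    ∃ c : ℝ, 0 < c ∧ ∃ N : ℕ, ∀ n : ℕ, N ≤ n → ∀ C : Finset (Fin n → Bool),
      (∀ x ∈ C, ∀ y ∈ C, x ≠ y → δ * n ≤ hammingDist x y) →
      ∀ A : Finset (Finset (Fin n)), (A : Set (Finset (Fin n))).PairwiseDisjoint id →
        (∀ S ∈ A, S.card ≤ k ∧ ∃ p : Fin n → Bool,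
          ε ≤ |((C.filter fun c => ∀ i ∈ S, c i = p i).card : ℝ) / C.card - (1 / 2) ^ S.card|) →
        ε * n ≤ A.card → (C.card : ℝ) ≤ 2 ^ ((ell δ - c) * n) := by
  classical
  obtain ⟨c, hc, N, hN⟩ := biased_family hδ hδ2 k hε
  refine ⟨c, hc, N, fun n hn C hC A hA hAS hcard => ?_⟩
  rcases C.eq_empty_or_nonempty with hCe | hCne
  · rw [hCe]
    simp only [Finset.card_empty, Nat.cast_zero]
    positivity
  have hex : ∀ S ∈ A, ∃ V : Finset (Fin n), V ⊆ S ∧ V.Nonempty ∧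
      ε * C.card ≤ |∑ x ∈ C, par V x| := by
    intro S hS
    obtain ⟨-, p, hp⟩ := hAS S hS
    exact bias_of_freq hCne hε (fun c => Finset.mem_filter) hp
  choose! V hV1 hV2 hV3 using hex
  have hdisj : ∀ S ∈ A, ∀ S' ∈ A, S ≠ S' → Disjoint (V S) (V S') := by
    intro S hS S' hS' hne
    exact Finset.disjoint_of_subset_left (hV1 S hS)
      (Finset.disjoint_of_subset_right (hV1 S' hS') (hA hS hS' hne))
  have hinj : Set.InjOn V (A : Set (Finset (Fin n))) := by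
    intro S hS S' hS' h
    by_contra hne
    have h1 := hdisj S hS S' hS' hne
    rw [← h, disjoint_self] at h1
    exact (hV2 S hS).ne_empty h1
  refine hN n hn C hC (A.image V) ?_ ?_ ?_
  · intro W hW W' hW' hne
    rw [Finset.mem_coe, Finset.mem_image] at hW hW'
    obtain ⟨S, hS, rfl⟩ := hW
    obtain ⟨S', hS', rfl⟩ := hW'
    exact hdisj S hS S' hS' (fun h => hne (by rw [h]))
  · intro W hW
    rw [Finset.mem_image] at hW
    obtain ⟨S, hS, rfl⟩ := hW
    exact ⟨hV2 S hS, (Finset.card_le_card (hV1 S hS)).trans (hAS S hS).1, hV3 S hS⟩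
  · rw [Finset.card_image_of_injOn hinj]
    exact hcard

/-- Trade-off between the size of a code and the low part of its spectrum. -/
theorem asym_spectrum {δ : ℝ} (hδ : 0 < δ) (hδ2 : δ < 1 / 2) {η : ℝ} (hη : 0 < η) :
    ∃ N : ℕ, ∀ n : ℕ, N ≤ n → ∀ C : Finset (Fin n → Bool),
      (∀ x ∈ C, ∀ y ∈ C, x ≠ y → δ * n ≤ hammingDist x y) →
        ∑ V : Finset (Fin n) with (V.card : ℝ) ≤ (1 - 2 * δ) ^ 2 / 4 * n,
          ((1 - 2 * δ) / 2) ^ V.card * (∑ x ∈ C, par V x) ^ 2 ≤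
        (C.card : ℝ) * (2 : ℝ) ^ ((ell δ + η) * n) := by
  -- choice of `δ'`
  have hcont : ContinuousAt ell δ := ell_continuousOn.continuousAt (Ioi_mem_nhds hδ)
  have ht : Tendsto ell (𝓝[<] δ) (𝓝 (ell δ)) := hcont.tendsto.mono_left nhdsWithin_le_nhds
  have h1 : ∀ᶠ x in 𝓝[<] δ, ell x < ell δ + η / 3 := ht.eventually (gt_mem_nhds (by linarith))
  have h2 : ∀ᶠ x in 𝓝[<] δ, x ∈ Set.Ioo 0 δ := Ioo_mem_nhdsLT hδ
  obtain ⟨δ', hδ'1, hδ'2⟩ := (h1.and h2).exists
  obtain ⟨hδ'0, hδ'δ⟩ := hδ'2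
  have h3 : ∀ᶠ n : ℕ in atTop, lexp δ' n / n < ell δ' + η / 3 :=
    (tendsto_ell hδ'0.le).eventually (gt_mem_nhds (by linarith))
  have h4 : Tendsto (fun n : ℕ => Real.logb 2 (2 / (δ - δ')) / (n : ℝ)) atTop (𝓝 0) :=
    tendsto_const_div_atTop_nhds_zero_nat _
  have h5 : ∀ᶠ n : ℕ in atTop, Real.logb 2 (2 / (δ - δ')) / (n : ℝ) < η / 3 :=
    h4.eventually (gt_mem_nhds (by linarith))
  obtain ⟨N, hN⟩ := eventually_atTop.1 ((h3.and h5).and (eventually_ge_atTop 1))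
  refine ⟨N, fun n hn C hC => ?_⟩
  obtain ⟨⟨g3, g5⟩, g1⟩ := hN n hn
  have hn0 : (0 : ℝ) < n := by exact_mod_cast g1
  have hgap : 0 < δ - δ' := by linarith
  rw [div_lt_iff₀ hn0] at g3 g5
  obtain ⟨h, hh, hval⟩ := exists_cert_two n (level_le hδ'0.le n)
  have hc : 0 < 1 - 2 * δ' := by linarith
  set D := ⌈δ * n⌉₊ with hD
  have hDl : δ * n ≤ (D : ℝ) := Nat.le_ceil _
  have hDn : (D : ℝ) ≤ n := by
    have : D ≤ n := by
      apply Nat.ceil_le.2
      nlinarith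
    exact_mod_cast this
  have hCD : ∀ x ∈ C, ∀ y ∈ C, x ≠ y → D ≤ hammingDist x y := by
    intro x hx y hy hxy
    exact Nat.ceil_le.2 (hC x hx y hy hxy)
  have key := low_spectrum_le (c := 1 - 2 * δ') hh hc (by rw [Fintype.card_fin]) C D hCD (by
      rw [Fintype.card_fin]
      nlinarith)
  rw [Fintype.card_fin] at key
  have hmono : ∑ V : Finset (Fin n) with (V.card : ℝ) ≤ (1 - 2 * δ) ^ 2 / 4 * n,
      ((1 - 2 * δ) / 2) ^ V.card * (∑ x ∈ C, par V x) ^ 2 ≤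
      ∑ V : Finset (Fin n) with (V.card : ℝ) ≤ (1 - 2 * δ') ^ 2 / 4 * n,
        ((1 - 2 * δ') / 2) ^ V.card * (∑ x ∈ C, par V x) ^ 2 := by
    have hsub : (univ.filter fun V : Finset (Fin n) => (V.card : ℝ) ≤ (1 - 2 * δ) ^ 2 / 4 * n) ⊆
        univ.filter fun V : Finset (Fin n) => (V.card : ℝ) ≤ (1 - 2 * δ') ^ 2 / 4 * n := by
      intro V hV
      rw [Finset.mem_filter] at hV ⊢
      refine ⟨hV.1, hV.2.trans ?_⟩
      apply mul_le_mul_of_nonneg_right _ hn0.le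
      have : (1 - 2 * δ) ^ 2 ≤ (1 - 2 * δ') ^ 2 := by
        apply pow_le_pow_left₀ (by linarith)
        linarith
      linarith
    refine (Finset.sum_le_sum fun V _ => ?_).trans
      (Finset.sum_le_sum_of_subset_of_nonneg hsub fun V _ _ => ?_)
    · apply mul_le_mul_of_nonneg_right _ (sq_nonneg _)
      apply pow_le_pow_left₀ (by linarith)
      linarith
    · have : 0 ≤ ((1 - 2 * δ') / 2) ^ V.card := by positivity
      positivity
  refine hmono.trans ?_
  set Ψ := ∑ V : Finset (Fin n) with (V.card : ℝ) ≤ (1 - 2 * δ') ^ 2 / 4 * n,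
        ((1 - 2 * δ') / 2) ^ V.card * (∑ x ∈ C, par V x) ^ 2 with hΨ
  have hΨ0 : 0 ≤ Ψ := by
    apply Finset.sum_nonneg
    intro V _
    have : 0 ≤ ((1 - 2 * δ') / 2) ^ V.card := by positivity
    positivity
  have hL := one_le_lam (level_le hδ'0.le n)
  have e4 : Ψ ≤ C.card * (2 / (δ - δ') * Lam n ((1 - 2 * δ') * n)) := by
    have f1 : 2 * ((δ - δ') * n) ≤ (1 - 2 * δ') * n - (n - 2 * (D : ℝ)) := by nlinarith
    have f2 : (2 * n) * ((δ - δ') * Ψ) ≤ (2 * n) * (C.card * (2 * Lam n ((1 - 2 * δ') * n))) := by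
      calc (2 * n) * ((δ - δ') * Ψ) = (2 * ((δ - δ') * n)) * Ψ := by ring
        _ ≤ ((1 - 2 * δ') * n - (n - 2 * (D : ℝ))) * Ψ := mul_le_mul_of_nonneg_right f1 hΨ0
        _ ≤ C.card * (2 * D * Tensor.val h) := key
        _ ≤ C.card * (2 * n * (2 * Lam n ((1 - 2 * δ') * n))) := by
            have := one_le_val hh
            gcongr
        _ = _ := by ring
    have f3 := le_of_mul_le_mul_left f2 (by positivity)
    have f4 : (C.card : ℝ) * (2 / (δ - δ') * Lam n ((1 - 2 * δ') * n)) =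
        C.card * (2 * Lam n ((1 - 2 * δ') * n)) / (δ - δ') := by ring
    rw [f4, le_div_iff₀ hgap]
    linarith
  refine e4.trans ?_
  apply mul_le_mul_of_nonneg_left _ (Nat.cast_nonneg _)
  have f1 : 2 / (δ - δ') * Lam n ((1 - 2 * δ') * n) =
      2 ^ (Real.logb 2 (2 / (δ - δ')) + lexp δ' n) := by
    unfold lexp
    rw [← Real.logb_mul (by positivity) (by linarith),
      Real.rpow_logb (by norm_num) (by norm_num) (by positivity)]
  rw [f1]
  apply Real.rpow_le_rpow_of_exponent_le (by norm_num)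
  nlinarith

/-- Large codes are uniform on all small sets outside a small set of coordinates. -/
theorem regular_outside {δ : ℝ} (hδ : 0 < δ) (hδ2 : δ < 1 / 2) (k : ℕ) {ε : ℝ} (hε : 0 < ε) :
    ∃ c : ℝ, 0 < c ∧ ∃ N : ℕ, ∀ n : ℕ, N ≤ n → ∀ C : Finset (Fin n → Bool),
      (∀ x ∈ C, ∀ y ∈ C, x ≠ y → δ * n ≤ hammingDist x y) →
      (2 : ℝ) ^ ((ell δ - c) * n) < C.card →
      ∃ T : Finset (Fin n), (T.card : ℝ) ≤ ε * n ∧ ∀ S : Finset (Fin n), S.card ≤ k →
        Disjoint S T → ∀ p : Fin n → Bool,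
          |((C.filter fun c => ∀ i ∈ S, c i = p i).card : ℝ) / C.card - (1 / 2) ^ S.card| < ε := by
  have hk1 : (0 : ℝ) < (k : ℝ) + 1 := by positivity
  set ε' := ε / (2 * (k + 1)) with hε'
  have hε'0 : 0 < ε' := by positivity
  have hε'1 : ε' ≤ ε := by
    rw [hε', div_le_iff₀ (by positivity)]
    have : (0 : ℝ) ≤ k := Nat.cast_nonneg k
    nlinarith
  obtain ⟨c, hc, N1, hN1⟩ := irregular_family hδ hδ2 k hε'0
  obtain ⟨N2, hN2⟩ := exists_nat_ge (2 * k / ε)
  refine ⟨c, hc, max N1 N2, fun n hn C hC hlarge => ?_⟩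
  have hnN1 : N1 ≤ n := (le_max_left _ _).trans hn
  have hnN2 : (2 * k / ε : ℝ) ≤ n := hN2.trans (by exact_mod_cast (le_max_right _ _).trans hn)
  have hn0 : (0 : ℝ) ≤ n := Nat.cast_nonneg n
  rw [div_le_iff₀ hε] at hnN2
  have hCne : C.Nonempty := by
    rw [← Finset.card_pos]
    have h0 : (0 : ℝ) < 2 ^ ((ell δ - c) * n) := Real.rpow_pos_of_pos (by norm_num) _
    exact_mod_cast h0.trans hlarge
  have hC0 : (C.card : ℝ) ≠ 0 := by exact_mod_cast hCne.card_pos.ne'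
  set F : Set (Finset (Fin n)) := {S | S.card ≤ k ∧ ∃ p : Fin n → Bool,
    ε ≤ |((C.filter fun c => ∀ i ∈ S, c i = p i).card : ℝ) / C.card - (1 / 2) ^ S.card|} with hF
  have hFne : ∀ S ∈ F, S.Nonempty := by
    rintro S ⟨-, p, hp⟩
    rw [Finset.nonempty_iff_ne_empty]
    rintro rfl
    have h1 : (C.filter fun c => ∀ i ∈ (∅ : Finset (Fin n)), c i = p i) = C := by
      apply Finset.filter_true_of_mem
      intro c _ i hi
      exact absurd hi (Finset.notMem_empty i)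
    rw [h1, div_self hC0] at hp
    simp at hp
    linarith
  rcases exists_disjoint_or_hitting F hFne (fun S hS => hS.1) ⌈ε' * n⌉₊ with
    ⟨A, hAM, hAF, hAd⟩ | ⟨T, hT, hhit⟩
  · exfalso
    refine absurd hlarge (not_lt.2 (hN1 n hnN1 C hC A hAd ?_ ?_))
    · intro S hS
      obtain ⟨h1, p, hp⟩ := hAF S hS
      exact ⟨h1, p, hε'1.trans hp⟩
    · rw [hAM]
      exact Nat.le_ceil _
  · refine ⟨T, ?_, ?_⟩
    · have h1 : (T.card : ℝ) ≤ k * (⌈ε' * n⌉₊ : ℝ) := by exact_mod_cast hT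
      have h2 : (⌈ε' * n⌉₊ : ℝ) < ε' * n + 1 := Nat.ceil_lt_add_one (by positivity)
      have h3 : (k : ℝ) * (ε' * n) ≤ ε / 2 * n := by
        have e1 : (k : ℝ) * ε' ≤ ε / 2 := by
          rw [hε', mul_div_assoc', div_le_div_iff₀ (by positivity) (by norm_num)]
          have : (0 : ℝ) ≤ k := Nat.cast_nonneg k
          nlinarith
        calc (k : ℝ) * (ε' * n) = k * ε' * n := by ring
          _ ≤ _ := mul_le_mul_of_nonneg_right e1 hn0
      have h4 : (k : ℝ) * (⌈ε' * n⌉₊ : ℝ) ≤ k * (ε' * n + 1) :=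
        mul_le_mul_of_nonneg_left h2.le (Nat.cast_nonneg k)
      nlinarith
    · intro S hS hST p
      by_contra hcon
      push Not at hcon
      exact hhit S ⟨hS, p, hcon⟩ hST

/-- The structure of codes whose size is close to the linear programming bound. -/
theorem structure_near {δ : ℝ} (hδ : 0 < δ) (hδ2 : δ < 1 / 2) (k : ℕ) {ε : ℝ} (hε : 0 < ε)
    {θ : ℝ} (hθ0 : 0 ≤ θ) (hθ : θ ≤ 1 / 2)
    (hθe : ell δ < 1 - Real.binEntropy θ / Real.log 2) :
    ∃ c : ℝ, 0 < c ∧ ∃ N : ℕ, ∀ n : ℕ, N ≤ n → ∀ C : Finset (Fin n → Bool),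
      (∀ x ∈ C, ∀ y ∈ C, x ≠ y → δ * n ≤ hammingDist x y) →
      (2 : ℝ) ^ ((ell δ - c) * n) < C.card →
      ∃ (T : Finset (Fin n)) (a : Fin n → Bool), (T.card : ℝ) ≤ ε * n ∧
        (∀ S : Finset (Fin n), S.card ≤ k → Disjoint S T → ∀ p : Fin n → Bool,
          |((C.filter fun c => ∀ i ∈ S, c i = p i).card : ℝ) / C.card - (1 / 2) ^ S.card| < ε) ∧
        (∀ x : Fin n → Bool, (∀ i ∈ T, x i = a i) →
          ∀ S : Finset (Fin n), S.card ≤ k → ∃ c ∈ C, ∀ i ∈ S, c i = x i) ∧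
        ∃ x : Fin n → Bool, (∀ i ∈ T, x i = a i) ∧ ∀ c ∈ C, θ * n < hammingDist x c := by
  obtain ⟨ρ, hρ, N0, hN0⟩ := exists_far hδ hδ2 hθ0 hθ hθe
  set ε' := min (ε / 2) (ρ / 2) with hε'
  have hε'0 : 0 < ε' := lt_min (by positivity) (by positivity)
  have hε'1 : ε' ≤ ε / 2 := min_le_left _ _
  have hε'2 : ε' ≤ ρ / 2 := min_le_right _ _
  obtain ⟨c1, hc1, N1, hN1⟩ := regular_outside hδ hδ2 k hε'0
  obtain ⟨c2, hc2, N2, hN2⟩ := closure_subcube hδ hδ2 k hε'0
  refine ⟨min c1 c2, lt_min hc1 hc2, max N0 (max N1 N2), fun n hn C hC hlarge => ?_⟩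
  have hn0 : (0 : ℝ) ≤ n := Nat.cast_nonneg n
  have hmono : ∀ c', min c1 c2 ≤ c' → (2 : ℝ) ^ ((ell δ - c') * n) < C.card := by
    intro c' hc'
    refine lt_of_le_of_lt ?_ hlarge
    apply Real.rpow_le_rpow_of_exponent_le (by norm_num)
    apply mul_le_mul_of_nonneg_right _ hn0
    linarith
  obtain ⟨T1, hT1, hreg⟩ := hN1 n ((le_max_left _ _).trans ((le_max_right _ _).trans hn)) C hC
    (hmono c1 (min_le_left _ _))
  obtain ⟨T2, a, hT2, hcl⟩ := hN2 n ((le_max_right _ _).trans ((le_max_right _ _).trans hn)) C hC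
    (hmono c2 (min_le_right _ _))
  have hT : ((T1 ∪ T2).card : ℝ) ≤ 2 * ε' * n := by
    have h1 : ((T1 ∪ T2).card : ℝ) ≤ T1.card + T2.card := by
      exact_mod_cast Finset.card_union_le T1 T2
    linarith
  refine ⟨T1 ∪ T2, a, hT.trans (mul_le_mul_of_nonneg_right (by linarith) hn0), ?_, ?_, ?_⟩
  · intro S hS hdis p
    have h1 := hreg S hS (Finset.disjoint_of_subset_right Finset.subset_union_left hdis) p
    linarith
  · intro x hx
    exact hcl x fun i hi => hx i (Finset.mem_union_right _ hi)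
  · exact hN0 n ((le_max_left _ _).trans hn) C hC _ a
      (hT.trans (mul_le_mul_of_nonneg_right (by linarith) hn0))

end Pool.Agent.Lib.MP_0430e4_lc.Stab
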