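import Pool.Agent.Lib.MP_0430e4_lc.Stab.Radial

/-!
# Codes with biased parities and the linear programming bound
-/

set_option autoImplicit false
set_option linter.unusedSectionVars false

namespace Pool.Agent.Lib.MP_0430e4_lc.Stab

open Finset Tensor

variable {ι : Type*} [Fintype ι] [DecidableEq ι]

/-- `-1` or `1` -/
def sgn (b : Bool) : ℝ := if b = true then -1 else 1

/-- the parity of the coordinates in `V` as a sign -/
def par (V : Finset ι) (x : ι → Bool) : ℝ := ∏ i ∈ V, sgn (x i)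

/-- the indicator of a set of coordinates -/
def ind (V : Finset ι) : ι → Bool := fun i => decide (i ∈ V)

theorem chi_ind (V : Finset ι) (x : ι → Bool) : chi x (ind V) = par V x := by
  unfold chi par sgn ind
  rw [← Finset.prod_filter_mul_prod_filter_not univ (fun i => i ∈ V)]
  have h1 : univ.filter (fun i => i ∈ V) = V := by ext; simp
  rw [h1]
  have h2 : ∏ x_1 ∈ univ.filter (fun x => ¬ x ∈ V),
      (if x x_1 = true ∧ decide (x_1 ∈ V) = true then (-1 : ℝ) else 1) = 1 := by
    apply Finset.prod_eq_one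
    intro i hi
    have : i ∉ V := (Finset.mem_filter.1 hi).2
    simp [this]
  rw [h2, mul_one]
  apply Finset.prod_congr rfl
  intro i hi
  simp [hi]

theorem wt_ind (V : Finset ι) : wt (ind V) = V.card := by
  unfold wt ind
  congr 1
  ext; simp

theorem ind_injective : Function.Injective (ind : Finset ι → (ι → Bool)) := by
  intro V W h
  ext i
  have := congrFun h i
  unfold ind at this
  simpa using this

theorem sgn_sq (b : Bool) : sgn b * sgn b = 1 := by cases b <;> simp [sgn]

theorem par_sq (V : Finset ι) (x : ι → Bool) : par V x * par V x = 1 := by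
  unfold par
  rw [← Finset.prod_mul_distrib]
  exact Finset.prod_eq_one fun i _ => sgn_sq _

theorem par_abs (V : Finset ι) (x : ι → Bool) : |par V x| = 1 := by
  have h := abs_mul_abs_self (par V x)
  rw [par_sq] at h
  rcases mul_self_eq_one_iff.1 h with h1 | h1
  · exact h1
  · have := abs_nonneg (par V x)
    linarith

/-- The linear programming inequality with the whole spectrum of the code. -/
theorem spectrum_le {l : ℝ} {h : (ι → Bool) → ℝ} (hh : IsCert l h)
    (C : Finset (ι → Bool)) (D : ℕ) (hC : ∀ x ∈ C, ∀ y ∈ C, x ≠ y → D ≤ hammingDist x y) :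
    (l - (Fintype.card ι - 2 * D)) * ∑ y, h y * (∑ x ∈ C, chi x y) ^ 2 ≤
      C.card * (2 * D * ∑ y, h y) := by
  classical
  set μ : ℝ := Fintype.card ι - 2 * D with hμ
  set g : (ι → Bool) → ℝ := fun y => (∑ i, h (flp y i)) - μ * h y with hg
  have hg0 : ∀ y, (l - μ) * h y ≤ g y := by
    intro y
    have := hh.adj y
    simp only [hg]
    linarith
  have h1 : ∑ x ∈ C, ∑ x' ∈ C, ∑ y, g y * chi (fun i => xor (x i) (x' i)) y
      = ∑ y, g y * (∑ x ∈ C, chi x y) ^ 2 := by
    simp only [chi_xor]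
    calc ∑ x ∈ C, ∑ x' ∈ C, ∑ y, g y * (chi x y * chi x' y)
        = ∑ x ∈ C, ∑ y, ∑ x' ∈ C, g y * (chi x y * chi x' y) := by
          apply Finset.sum_congr rfl
          intro x _
          rw [Finset.sum_comm]
      _ = ∑ y, ∑ x ∈ C, ∑ x' ∈ C, g y * (chi x y * chi x' y) := Finset.sum_comm
      _ = _ := by
          apply Finset.sum_congr rfl
          intro y _
          rw [sq, Finset.sum_mul_sum, Finset.mul_sum]
          apply Finset.sum_congr rfl
          intro x _
          rw [Finset.mul_sum]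
  have h2 : (l - μ) * ∑ y, h y * (∑ x ∈ C, chi x y) ^ 2
      ≤ ∑ y, g y * (∑ x ∈ C, chi x y) ^ 2 := by
    rw [Finset.mul_sum]
    apply Finset.sum_le_sum
    intro y _
    rw [← mul_assoc]
    exact mul_le_mul_of_nonneg_right (hg0 y) (sq_nonneg _)
  have h3 : ∀ z : ι → Bool, ∑ y, g y * chi z y
      = ((Fintype.card ι - 2 * (univ.filter fun i => z i = true).card) - μ)
        * ∑ y, h y * chi z y := by
    intro z
    rw [sub_mul, ← sum_adj_chi, Finset.mul_sum, ← Finset.sum_sub_distrib]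
    apply Finset.sum_congr rfl
    intro y _
    simp only [hg]
    ring
  have h4 : ∑ x ∈ C, ∑ x' ∈ C, ∑ y, g y * chi (fun i => xor (x i) (x' i)) y
      ≤ C.card * (2 * D * ∑ y, h y) := by
    rw [← nsmul_eq_mul, ← Finset.sum_const]
    apply Finset.sum_le_sum
    intro x hx
    rw [← Finset.add_sum_erase C _ hx]
    have e1 : ∑ y, g y * chi (fun i => xor (x i) (x i)) y = 2 * D * ∑ y, h y := by
      rw [h3]
      have : (fun i => xor (x i) (x i)) = (fun _ => false) := by
        funext i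
        simp
      rw [this]
      simp only [chi_zero_left, mul_one]
      simp [hμ]
    have e2 : ∑ x' ∈ C.erase x, ∑ y, g y * chi (fun i => xor (x i) (x' i)) y ≤ 0 := by
      apply Finset.sum_nonpos
      intro x' hx'
      rw [h3]
      have hne : x ≠ x' := (Finset.ne_of_mem_erase hx').symm
      have hD := hC x hx x' (Finset.mem_of_mem_erase hx') hne
      rw [hammingDist_eq_card_xor] at hD
      apply mul_nonpos_of_nonpos_of_nonneg
      · rw [hμ]
        have : (D : ℝ) ≤ ((univ.filter fun i => (xor (x i) (x' i)) = true).card : ℝ) := by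
          exact_mod_cast hD
        linarith
      · exact hh.fourier _
    linarith
  linarith

/-- union of the sets indexed by `J` -/
def un {m : ℕ} (V : Fin m → Finset ι) (J : Finset (Fin m)) : Finset ι := J.biUnion V

theorem par_un {m : ℕ} {V : Fin m → Finset ι} (hV : ∀ a b, a ≠ b → Disjoint (V a) (V b))
    (J : Finset (Fin m)) (x : ι → Bool) : par (un V J) x = ∏ j ∈ J, par (V j) x := by
  unfold par un
  rw [Finset.prod_biUnion]
  intro a _ b _ hab
  exact hV a b hab

theorem un_injective {m : ℕ} {V : Fin m → Finset ι} (hV : ∀ a b, a ≠ b → Disjoint (V a) (V b))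
    (hne : ∀ a, (V a).Nonempty) : Function.Injective (un V) := by
  have key : ∀ J : Finset (Fin m), ∀ a, a ∈ J ↔ ∃ i ∈ V a, i ∈ un V J := by
    intro J a
    constructor
    · intro ha
      obtain ⟨i, hi⟩ := hne a
      exact ⟨i, hi, Finset.mem_biUnion.2 ⟨a, ha, hi⟩⟩
    · rintro ⟨i, hi, hiJ⟩
      obtain ⟨b, hb, hib⟩ := Finset.mem_biUnion.1 hiJ
      by_cases hab : a = b
      · rw [hab]; exact hb
      · exact absurd hib (Finset.disjoint_left.1 (hV a b hab) hi)
  intro J J' h
  ext a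
  rw [key, key, h]

theorem card_un_le {m k : ℕ} {V : Fin m → Finset ι} (hk : ∀ a, (V a).card ≤ k)
    (J : Finset (Fin m)) : (un V J).card ≤ J.card * k := by
  unfold un
  exact Finset.card_biUnion_le_card_mul _ _ _ (fun a _ => hk a)

theorem exp_le_one_add {t : ℝ} (h1 : |t| ≤ 1 / 5) : Real.exp (t - 2 * t ^ 2) ≤ 1 + t := by
  have h2 := abs_le.1 h1
  have h3 : |t - 2 * t ^ 2| ≤ 1 := by
    rw [abs_le]
    constructor <;> nlinarith
  have h4 := Real.abs_exp_sub_one_sub_id_le h3
  have h5 := (abs_le.1 h4).2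
  have h6 : (t - 2 * t ^ 2) ^ 2 ≤ 2 * t ^ 2 := by
    have : (t - 2 * t ^ 2) ^ 2 = t ^ 2 * (1 - 2 * t) ^ 2 := by ring
    rw [this]
    have h7 : (1 - 2 * t) ^ 2 ≤ 2 := by nlinarith
    nlinarith [sq_nonneg t]
  linarith

/-- Expansion of the squares of the products of parities. -/
theorem sum_powerset_eq {m : ℕ} (V : Fin m → Finset ι) (C : Finset (ι → Bool)) (s : ℝ) :
    ∑ J : Finset (Fin m), s ^ J.card * (∑ x ∈ C, ∏ j ∈ J, par (V j) x) ^ 2 =
      ∑ x ∈ C, ∑ x' ∈ C, ∏ j, (1 + s * (par (V j) x * par (V j) x')) := by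
  have h1 : ∀ x x' : ι → Bool, ∏ j, (1 + s * (par (V j) x * par (V j) x')) =
      ∑ J : Finset (Fin m), s ^ J.card * ((∏ j ∈ J, par (V j) x) * ∏ j ∈ J, par (V j) x') := by
    intro x x'
    rw [Finset.prod_one_add]
    rw [Finset.powerset_univ]
    apply Finset.sum_congr rfl
    intro J _
    rw [Finset.prod_mul_distrib, Finset.prod_const, Finset.prod_mul_distrib]
  simp only [h1]
  calc ∑ J : Finset (Fin m), s ^ J.card * (∑ x ∈ C, ∏ j ∈ J, par (V j) x) ^ 2
      = ∑ J : Finset (Fin m), ∑ x ∈ C, ∑ x' ∈ C,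
          s ^ J.card * ((∏ j ∈ J, par (V j) x) * ∏ j ∈ J, par (V j) x') := by
        apply Finset.sum_congr rfl
        intro J _
        rw [sq, Finset.sum_mul_sum, Finset.mul_sum]
        apply Finset.sum_congr rfl
        intro x _
        rw [Finset.mul_sum]
    _ = ∑ x ∈ C, ∑ J : Finset (Fin m), ∑ x' ∈ C,
          s ^ J.card * ((∏ j ∈ J, par (V j) x) * ∏ j ∈ J, par (V j) x') := Finset.sum_comm
    _ = _ := by
        apply Finset.sum_congr rfl
        intro x _
        exact Finset.sum_comm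

/-- Jensen's inequality for the expansion. -/
theorem jensen {m : ℕ} (V : Fin m → Finset ι) (C : Finset (ι → Bool)) {s ε : ℝ}
    (hs : 0 ≤ s) (hs5 : s ≤ 1 / 5)
    (hε : ∀ j, ε * C.card ≤ |∑ x ∈ C, par (V j) x|) (hε0 : 0 ≤ ε) :
    (C.card : ℝ) ^ 2 * Real.exp (m * (s * ε ^ 2 - 2 * s ^ 2)) ≤
      ∑ x ∈ C, ∑ x' ∈ C, ∏ j, (1 + s * (par (V j) x * par (V j) x')) := by
  set A : ℝ := m * (s * ε ^ 2 - 2 * s ^ 2) with hA
  -- pointwise
  have h1 : ∀ x x' : ι → Bool, Real.exp (∑ j, (s * (par (V j) x * par (V j) x') - 2 * s ^ 2)) ≤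
      ∏ j, (1 + s * (par (V j) x * par (V j) x')) := by
    intro x x'
    rw [Real.exp_sum]
    apply Finset.prod_le_prod
    · intro j _
      exact (Real.exp_pos _).le
    · intro j _
      have h2 : |s * (par (V j) x * par (V j) x')| ≤ 1 / 5 := by
        rw [abs_mul, abs_mul, par_abs, par_abs, abs_of_nonneg hs]
        linarith
      have h3 := exp_le_one_add h2
      have h4 : (s * (par (V j) x * par (V j) x')) ^ 2 = s ^ 2 := by
        have e1 := par_sq (V j) x
        have e2 := par_sq (V j) x'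
        calc (s * (par (V j) x * par (V j) x')) ^ 2 =
            s ^ 2 * ((par (V j) x * par (V j) x) * (par (V j) x' * par (V j) x')) := by ring
          _ = s ^ 2 := by rw [e1, e2]; ring
      rw [h4] at h3
      exact h3
  -- tangent line at A
  have h2 : ∀ x x' : ι → Bool, Real.exp A *
      (1 + (∑ j, (s * (par (V j) x * par (V j) x') - 2 * s ^ 2) - A)) ≤
      ∏ j, (1 + s * (par (V j) x * par (V j) x')) := by
    intro x x'
    refine le_trans ?_ (h1 x x')
    set B := ∑ j, (s * (par (V j) x * par (V j) x') - 2 * s ^ 2) with hB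
    have h3 := Real.add_one_le_exp (B - A)
    have h4 : Real.exp B = Real.exp A * Real.exp (B - A) := by
      rw [← Real.exp_add]; ring_nf
    rw [h4]
    apply mul_le_mul_of_nonneg_left _ (Real.exp_pos _).le
    linarith
  have h3 : ∑ x ∈ C, ∑ x' ∈ C, Real.exp A *
      (1 + (∑ j, (s * (par (V j) x * par (V j) x') - 2 * s ^ 2) - A)) ≤
      ∑ x ∈ C, ∑ x' ∈ C, ∏ j, (1 + s * (par (V j) x * par (V j) x')) :=
    Finset.sum_le_sum fun x _ => Finset.sum_le_sum fun x' _ => h2 x x'
  refine le_trans ?_ h3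
  -- average of the exponents
  have h4 : (C.card : ℝ) ^ 2 * A ≤ ∑ x ∈ C, ∑ x' ∈ C,
      ∑ j, (s * (par (V j) x * par (V j) x') - 2 * s ^ 2) := by
    have e1 : ∑ x ∈ C, ∑ x' ∈ C, ∑ j, (s * (par (V j) x * par (V j) x') - 2 * s ^ 2) =
        ∑ j, (s * (∑ x ∈ C, par (V j) x) ^ 2 - (C.card : ℝ) ^ 2 * (2 * s ^ 2)) := by
      calc ∑ x ∈ C, ∑ x' ∈ C, ∑ j, (s * (par (V j) x * par (V j) x') - 2 * s ^ 2)
          = ∑ x ∈ C, ∑ j, ∑ x' ∈ C, (s * (par (V j) x * par (V j) x') - 2 * s ^ 2) := by
            apply Finset.sum_congr rfl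
            intro x _
            exact Finset.sum_comm
        _ = ∑ j, ∑ x ∈ C, ∑ x' ∈ C, (s * (par (V j) x * par (V j) x') - 2 * s ^ 2) :=
            Finset.sum_comm
        _ = _ := by
            apply Finset.sum_congr rfl
            intro j _
            simp only [Finset.sum_sub_distrib, Finset.sum_const, nsmul_eq_mul]
            rw [sq (∑ x ∈ C, par (V j) x), Finset.sum_mul_sum, Finset.mul_sum]
            congr 1
            · apply Finset.sum_congr rfl
              intro x _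
              rw [Finset.mul_sum]
            · ring
    rw [e1]
    have e2 : ∀ j ∈ (univ : Finset (Fin m)), (C.card : ℝ) ^ 2 * (s * ε ^ 2 - 2 * s ^ 2) ≤
        s * (∑ x ∈ C, par (V j) x) ^ 2 - (C.card : ℝ) ^ 2 * (2 * s ^ 2) := by
      intro j _
      have f1 : (ε * C.card) ^ 2 ≤ (∑ x ∈ C, par (V j) x) ^ 2 := by
        rw [← sq_abs (∑ x ∈ C, par (V j) x)]
        exact pow_le_pow_left₀ (by positivity) (hε j) 2
      nlinarith [mul_le_mul_of_nonneg_left f1 hs]
    have e3 := Finset.sum_le_sum e2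
    rw [Finset.sum_const, Finset.card_univ, Fintype.card_fin, nsmul_eq_mul] at e3
    rw [hA]
    linarith
  have h5 : ∑ x ∈ C, ∑ x' ∈ C, Real.exp A *
      (1 + (∑ j, (s * (par (V j) x * par (V j) x') - 2 * s ^ 2) - A)) =
      Real.exp A * ((C.card : ℝ) ^ 2 + ((∑ x ∈ C, ∑ x' ∈ C,
      ∑ j, (s * (par (V j) x * par (V j) x') - 2 * s ^ 2)) - (C.card : ℝ) ^ 2 * A)) := by
    simp only [← Finset.mul_sum]
    congr 1
    simp only [Finset.sum_add_distrib, Finset.sum_sub_distrib, Finset.sum_const, nsmul_eq_mul]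
    ring
  rw [h5, mul_comm]
  apply mul_le_mul_of_nonneg_left _ (Real.exp_pos _).le
  linarith

/-- Disjoint biased parities improve the linear programming bound. -/
theorem card_le_of_bias {l c ε s : ℝ} {h : (ι → Bool) → ℝ} (hh : IsCert l h)
    (hc : 0 < c) (hl : c * Fintype.card ι ≤ l) {k m : ℕ} (V : Fin m → Finset ι)
    (hV : ∀ a b, a ≠ b → Disjoint (V a) (V b)) (hne : ∀ a, (V a).Nonempty)
    (hk : ∀ a, (V a).card ≤ k) (hkm : ((m * k : ℕ) : ℝ) ≤ c ^ 2 / 4 * Fintype.card ι)
    (hc2 : c ≤ 2) (hs : 0 ≤ s) (hs5 : s ≤ 1 / 5) (hsk : s ≤ (c / 2) ^ k) (hε0 : 0 ≤ ε)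
    (C : Finset (ι → Bool)) (D : ℕ) (hC : ∀ x ∈ C, ∀ y ∈ C, x ≠ y → D ≤ hammingDist x y)
    (hD : (Fintype.card ι : ℝ) - 2 * D ≤ l)
    (hε : ∀ j, ε * C.card ≤ |∑ x ∈ C, par (V j) x|) :
    (l - (Fintype.card ι - 2 * D)) * (C.card * Real.exp (m * (s * ε ^ 2 - 2 * s ^ 2))) ≤
      2 * D * Tensor.val h := by
  have hh' := isCert_symm hh
  have hsy := isSymm_symm h
  set g := symm h with hg
  have h0 : 0 < g (fun _ => false) := hh'.pos
  have h1 := spectrum_le hh' C D hC
  -- lower bound of the spectrum sum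
  have h2 : ∑ J : Finset (Fin m), s ^ J.card * g (fun _ => false) *
      (∑ x ∈ C, ∏ j ∈ J, par (V j) x) ^ 2 ≤ ∑ y, g y * (∑ x ∈ C, chi x y) ^ 2 := by
    have e1 : ∑ J : Finset (Fin m), g (ind (un V J)) * (∑ x ∈ C, chi x (ind (un V J))) ^ 2 ≤
        ∑ y, g y * (∑ x ∈ C, chi x y) ^ 2 := by
      have hinj : Function.Injective fun J : Finset (Fin m) => ind (un V J) :=
        ind_injective.comp (un_injective hV hne)
      rw [← Finset.sum_image (f := fun y => g y * (∑ x ∈ C, chi x y) ^ 2)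
        (g := fun J : Finset (Fin m) => ind (un V J)) (hinj.injOn)]
      apply Finset.sum_le_sum_of_subset_of_nonneg (Finset.subset_univ _)
      intro y _ _
      exact mul_nonneg (hh'.nonneg y) (sq_nonneg _)
    refine le_trans ?_ e1
    apply Finset.sum_le_sum
    intro J _
    have e2 : ∑ x ∈ C, chi x (ind (un V J)) = ∑ x ∈ C, ∏ j ∈ J, par (V j) x := by
      apply Finset.sum_congr rfl
      intro x _
      rw [chi_ind, par_un hV]
    rw [e2]
    apply mul_le_mul_of_nonneg_right _ (sq_nonneg _)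
    have e3 := card_un_le hk J
    have e4 : J.card ≤ m := by
      have := Finset.card_le_univ J
      rwa [Fintype.card_fin] at this
    have e5 : ((un V J).card : ℝ) ≤ c ^ 2 / 4 * Fintype.card ι := by
      refine le_trans ?_ hkm
      exact_mod_cast e3.trans (Nat.mul_le_mul_right k e4)
    have e6 := growth hc hh' hsy hl (un V J).card (ind (un V J)) (wt_ind _) e5
    refine le_trans ?_ e6
    apply mul_le_mul_of_nonneg_right _ h0.le
    calc s ^ J.card ≤ ((c / 2) ^ k) ^ J.card := pow_le_pow_left₀ hs hsk _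
      _ = (c / 2) ^ (J.card * k) := by rw [← pow_mul, mul_comm]
      _ ≤ (c / 2) ^ (un V J).card :=
          pow_le_pow_of_le_one (by positivity) (by linarith) e3
  have h3 : ∑ J : Finset (Fin m), s ^ J.card * g (fun _ => false) *
      (∑ x ∈ C, ∏ j ∈ J, par (V j) x) ^ 2 = g (fun _ => false) *
      ∑ x ∈ C, ∑ x' ∈ C, ∏ j, (1 + s * (par (V j) x * par (V j) x')) := by
    rw [← sum_powerset_eq, Finset.mul_sum]
    apply Finset.sum_congr rfl
    intro J _
    ring
  rw [h3] at h2
  have h4 := jensen V C hs hs5 hε hε0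
  have hgap : 0 ≤ l - (Fintype.card ι - 2 * D) := by linarith
  set E := Real.exp (m * (s * ε ^ 2 - 2 * s ^ 2)) with hE
  have h5 : (l - (Fintype.card ι - 2 * D)) * (g (fun _ => false) * ((C.card : ℝ) ^ 2 * E)) ≤
      C.card * (2 * D * ∑ y, g y) := by
    refine le_trans ?_ h1
    apply mul_le_mul_of_nonneg_left _ hgap
    refine le_trans ?_ h2
    exact mul_le_mul_of_nonneg_left h4 h0.le
  have h6 : ∑ y, g y = Tensor.val h * g (fun _ => false) := by
    rw [← val_symm h, ← hg]
    unfold Tensor.val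
    rw [div_mul_cancel₀ _ h0.ne']
  rw [h6] at h5
  rcases Nat.eq_zero_or_pos C.card with hz | hz
  · rw [hz]
    simp only [Nat.cast_zero, zero_mul, mul_zero]
    have := one_le_val hh
    positivity
  · have hz' : (0 : ℝ) < C.card := by exact_mod_cast hz
    have h7 : (C.card * g (fun _ => false)) * ((l - (Fintype.card ι - 2 * D)) * (C.card * E)) ≤
        (C.card * g (fun _ => false)) * (2 * D * Tensor.val h) := by
      calc (C.card * g (fun _ => false)) * ((l - (Fintype.card ι - 2 * D)) * (C.card * E)) =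
          (l - (Fintype.card ι - 2 * D)) * (g (fun _ => false) * ((C.card : ℝ) ^ 2 * E)) := by ring
        _ ≤ C.card * (2 * D * (Tensor.val h * g (fun _ => false))) := h5
        _ = _ := by ring
    exact le_of_mul_le_mul_left h7 (mul_pos hz' h0)

/-- The low part of the spectrum in the linear programming bound. -/
theorem low_spectrum_le {l c : ℝ} {h : (ι → Bool) → ℝ} (hh : IsCert l h)
    (hc : 0 < c) (hl : c * Fintype.card ι ≤ l)
    (C : Finset (ι → Bool)) (D : ℕ) (hC : ∀ x ∈ C, ∀ y ∈ C, x ≠ y → D ≤ hammingDist x y)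
    (hD : (Fintype.card ι : ℝ) - 2 * D ≤ l) :
    (l - (Fintype.card ι - 2 * D)) *
      ∑ V : Finset ι with (V.card : ℝ) ≤ c ^ 2 / 4 * Fintype.card ι,
        (c / 2) ^ V.card * (∑ x ∈ C, par V x) ^ 2 ≤ C.card * (2 * D * Tensor.val h) := by
  have hh' := isCert_symm hh
  have hsy := isSymm_symm h
  set g := symm h with hg
  have h0 : 0 < g (fun _ => false) := hh'.pos
  have h1 := spectrum_le hh' C D hC
  have h2 : g (fun _ => false) *
      ∑ V : Finset ι with (V.card : ℝ) ≤ c ^ 2 / 4 * Fintype.card ι,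
        (c / 2) ^ V.card * (∑ x ∈ C, par V x) ^ 2 ≤ ∑ y, g y * (∑ x ∈ C, chi x y) ^ 2 := by
    have e1 : ∑ V : Finset ι with (V.card : ℝ) ≤ c ^ 2 / 4 * Fintype.card ι,
        g (ind V) * (∑ x ∈ C, chi x (ind V)) ^ 2 ≤ ∑ y, g y * (∑ x ∈ C, chi x y) ^ 2 := by
      rw [← Finset.sum_image (f := fun y => g y * (∑ x ∈ C, chi x y) ^ 2)
        (g := fun V : Finset ι => ind V) (ind_injective.injOn)]
      apply Finset.sum_le_sum_of_subset_of_nonneg (Finset.subset_univ _)
      intro y _ _
      exact mul_nonneg (hh'.nonneg y) (sq_nonneg _)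
    refine le_trans ?_ e1
    rw [Finset.mul_sum]
    apply Finset.sum_le_sum
    intro V hV
    have hV' := (Finset.mem_filter.1 hV).2
    have e2 : ∑ x ∈ C, chi x (ind V) = ∑ x ∈ C, par V x :=
      Finset.sum_congr rfl fun x _ => chi_ind V x
    rw [e2]
    have e3 := growth hc hh' hsy hl V.card (ind V) (wt_ind _) hV'
    calc g (fun _ => false) * ((c / 2) ^ V.card * (∑ x ∈ C, par V x) ^ 2) =
        (c / 2) ^ V.card * g (fun _ => false) * (∑ x ∈ C, par V x) ^ 2 := by ring
      _ ≤ g (ind V) * (∑ x ∈ C, par V x) ^ 2 := mul_le_mul_of_nonneg_right e3 (sq_nonneg _)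
  have hgap : 0 ≤ l - (Fintype.card ι - 2 * D) := by linarith
  set Ψ := ∑ V : Finset ι with (V.card : ℝ) ≤ c ^ 2 / 4 * Fintype.card ι,
        (c / 2) ^ V.card * (∑ x ∈ C, par V x) ^ 2 with hΨ
  have h5 : (l - (Fintype.card ι - 2 * D)) * (g (fun _ => false) * Ψ) ≤
      C.card * (2 * D * ∑ y, g y) :=
    (mul_le_mul_of_nonneg_left h2 hgap).trans h1
  have h6 : ∑ y, g y = Tensor.val h * g (fun _ => false) := by
    rw [← val_symm h, ← hg]
    unfold Tensor.val
    rw [div_mul_cancel₀ _ h0.ne']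
  rw [h6] at h5
  have h7 : g (fun _ => false) * ((l - (Fintype.card ι - 2 * D)) * Ψ) ≤
      g (fun _ => false) * (C.card * (2 * D * Tensor.val h)) := by
    calc g (fun _ => false) * ((l - (Fintype.card ι - 2 * D)) * Ψ) =
        (l - (Fintype.card ι - 2 * D)) * (g (fun _ => false) * Ψ) := by ring
      _ ≤ C.card * (2 * D * (Tensor.val h * g (fun _ => false))) := h5
      _ = _ := by ring
  exact le_of_mul_le_mul_left h7 h0

end Pool.Agent.Lib.MP_0430e4_lc.Stab
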